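import Pool.Agent.H558R3.HexSound
import Pool.Agent.H558R3.HexData

/-!
# No affinely regular hexagon is inscribed in the ten-gon
-/

set_option autoImplicit false

namespace Pool.Agent.H558R3.Hex

theorem canon (x y : Fin 6 → ℝ) (hx : Rel x) (hy : Rel y) (hnd : ND x y) (e : Fin 6 → ℕ)
    (hs : e 1 ≤ e 5) (ho : ∀ k, OnE (x k) (y k) (e k))
    (hmin : ∀ k, e 0 ≤ e k) (hmax : ∀ k, e k ≤ 9) : False := by
  have h0 := hmax 0
  have hc : e 0 = 0 ∨ e 0 = 1 ∨ e 0 = 2 ∨ e 0 = 3 ∨ e 0 = 4 ∨ e 0 = 5 ∨ e 0 = 6 ∨ e 0 = 7 ∨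
    e 0 = 8 ∨ e 0 = 9 := by omega
  rcases hc with h | h | h | h | h | h | h | h | h | h <;> rw [h] at hmin
  · exact chk_sound 0 _ chk0 x y hx hy hnd e hs ho h hmin hmax
  · exact chk_sound 1 _ chk1 x y hx hy hnd e hs ho h hmin hmax
  · exact chk_sound 2 _ chk2 x y hx hy hnd e hs ho h hmin hmax
  · exact chk_sound 3 _ chk3 x y hx hy hnd e hs ho h hmin hmax
  · exact chk_sound 4 _ chk4 x y hx hy hnd e hs ho h hmin hmax
  · exact chk_sound 5 _ chk5 x y hx hy hnd e hs ho h hmin hmax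
  · exact chk_sound 6 _ chk6 x y hx hy hnd e hs ho h hmin hmax
  · exact chk_sound 7 _ chk7 x y hx hy hnd e hs ho h hmin hmax
  · exact chk_sound 8 _ chk8 x y hx hy hnd e hs ho h hmin hmax
  · exact chk_sound 9 _ chk9 x y hx hy hnd e hs ho h hmin hmax

theorem fin6_a (k : Fin 6) : -(k + 3) + 3 = -k := by revert k; decide

theorem fin6_b (k : Fin 6) : -(k + 3) + 2 = -(k + 1) := by revert k; decide

theorem fin6_c (k : Fin 6) : -(k + 3) + 1 = -(k + 2) := by revert k; decide

theorem fin6_d (m : Fin 6) : (-2 : Fin 6) + m + 1 = -1 + m := by revert m; decide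

theorem fin6_e (m : Fin 6) : (-2 : Fin 6) + m + 2 = m := by revert m; decide

theorem Rec.shift {x : Fin 6 → ℝ} (hx : Rec x) (m : Fin 6) : Rec (fun k => x (k + m)) := by
  intro k
  have h := hx (k + m)
  have e1 : k + m + 3 = k + 3 + m := add_right_comm _ _ _
  have e2 : k + m + 2 = k + 2 + m := add_right_comm _ _ _
  have e3 : k + m + 1 = k + 1 + m := add_right_comm _ _ _
  rw [e1, e2, e3] at h
  exact h

theorem Rec.neg {x : Fin 6 → ℝ} (hx : Rec x) : Rec (fun k => x (-k)) := by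
  intro k
  have h := hx (-(k + 3))
  rw [fin6_a, fin6_b, fin6_c] at h
  show x (-(k + 3)) = x (-k) + 2 * (x (-(k + 2)) - x (-(k + 1)))
  linarith

/-- nondegeneracy at every vertex -/
def NDall (x y : Fin 6 → ℝ) : Prop :=
  ∀ k, (x (k + 1) - x k) * (y (k + 2) - y k) - (x (k + 2) - x k) * (y (k + 1) - y k) ≠ 0

theorem hex_core (x y : Fin 6 → ℝ) (hx : Rec x) (hy : Rec y) (hnd : NDall x y)
    (e : Fin 6 → ℕ) (hmax : ∀ k, e k ≤ 9) (ho : ∀ k, OnE (x k) (y k) (e k)) : False := by
  obtain ⟨m, -, hm⟩ := Finset.exists_min_image Finset.univ e ⟨0, Finset.mem_univ _⟩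
  have hm' : ∀ k, e m ≤ e k := fun k => hm k (Finset.mem_univ _)
  rcases le_total (e (1 + m)) (e (5 + m)) with h | h
  · refine canon (fun k => x (k + m)) (fun k => y (k + m)) (hx.shift m).rel (hy.shift m).rel ?_
      (fun k => e (k + m)) h (fun k => ho _) (fun k => ?_) (fun k => hmax _)
    · have h1 := hnd m
      unfold ND
      simp only [zero_add]
      rw [add_comm 1 m, add_comm 2 m]
      exact h1
    · simp only [zero_add]
      exact hm' _
  · refine canon (fun k => x (-k + m)) (fun k => y (-k + m)) ((hx.shift m).neg).rel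
      ((hy.shift m).neg).rel ?_
      (fun k => e (-k + m)) h (fun k => ho _) (fun k => ?_) (fun k => hmax _)
    · have h1 := hnd (-2 + m)
      rw [fin6_d, fin6_e] at h1
      unfold ND
      simp only [neg_zero, zero_add]
      intro h2
      apply h1
      linear_combination -h2
    · simp only [neg_zero, zero_add]
      exact hm' _

end Pool.Agent.H558R3.Hex
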