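import Pool.Agent.H558R3.HexSound

/-!
# The ten-gon as a Jordan curve
-/

set_option autoImplicit false

namespace Pool.Agent.H558R3.Hex

/-- separating functionals for pairs of half-open edges -/
def T : Nat → Int × Int
  | 1 => (2, -3)
  | 2 => (-2, 3)
  | 3 => (-1, 2)
  | 4 => (-1, 2)
  | 5 => (-1, -1)
  | 6 => (-1, -1)
  | 7 => (-1, -1)
  | 8 => (-1, -1)
  | 9 => (2, -3)
  | 12 => (1, -1)
  | 13 => (-1, 1)
  | 14 => (-1, 2)
  | 15 => (-1, -1)
  | 16 => (-1, -1)
  | 17 => (-1, -1)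
  | 18 => (-1, -1)
  | 19 => (-1, 2)
  | 23 => (-1, -1)
  | 24 => (-1, -1)
  | 25 => (-1, -1)
  | 26 => (-1, -1)
  | 27 => (-1, -1)
  | 28 => (-1, -1)
  | 29 => (-1, 2)
  | 34 => (-1, -1)
  | 35 => (-1, -1)
  | 36 => (-1, -1)
  | 37 => (-1, -1)
  | 38 => (-1, -1)
  | 39 => (-1, 2)
  | 45 => (-2, 3)
  | 46 => (-1, 2)
  | 47 => (-1, 2)
  | 48 => (-1, 2)
  | 49 => (-1, 2)
  | 56 => (-2, 3)
  | 57 => (-2, 3)
  | 58 => (-1, 2)
  | 59 => (-1, 2)
  | 67 => (-1, 0)
  | 68 => (-1, 1)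
  | 69 => (-1, 2)
  | 78 => (1, 1)
  | 79 => (-1, -1)
  | 89 => (1, -1)
  | _ => (0, 0)

/-- the half-open edges `i` and `j` are separated by the functional `(a, b)` -/
def Sep (a b : Int) (i j : ℕ) : Prop :=
  (val a b i < val a b j ∧ val a b i < val a b (j + 1) ∧ val a b (i + 1) ≤ val a b j ∧
    val a b (i + 1) ≤ val a b (j + 1)) ∨
  (val a b j < val a b i ∧ val a b j < val a b (i + 1) ∧ val a b (j + 1) ≤ val a b i ∧
    val a b (j + 1) ≤ val a b (i + 1))

instance (a b : Int) (i j : ℕ) : Decidable (Sep a b i j) := by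
  unfold Sep
  infer_instance

theorem sep_all : ∀ i < 10, ∀ j < 10, i < j → Sep (T (10 * i + j)).1 (T (10 * i + j)).2 i j := by
  decide +kernel

/-- the vertices as complex numbers -/
noncomputable def P (i : ℕ) : ℂ := ⟨VX i, VY i⟩

noncomputable def cl (t : ℝ) : ℝ := max 0 (min 1 t)

theorem cl_one {t : ℝ} (h : 1 ≤ t) : cl t = 1 := by
  unfold cl
  rw [min_eq_left h]
  exact max_eq_right zero_le_one

theorem cl_zero {t : ℝ} (h : t ≤ 0) : cl t = 0 := by
  unfold cl
  exact max_eq_left (le_trans (min_le_right _ _) h)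

theorem cl_mid {t : ℝ} (h : 0 ≤ t) (h1 : t ≤ 1) : cl t = t := by
  unfold cl
  rw [min_eq_right h1]
  exact max_eq_right h

theorem cl_cont : Continuous cl := by
  unfold cl
  fun_prop

/-- partial sums -/
noncomputable def S (n : ℕ) (t : ℝ) : ℂ :=
  ∑ i ∈ Finset.range n, ((cl (t - i) : ℝ) : ℂ) * (P (i + 1) - P i)

theorem S_cont (n : ℕ) : Continuous (S n) := by
  unfold S
  refine continuous_finsetSum _ fun i _ => ?_
  refine Continuous.mul ?_ continuous_const
  exact Complex.continuous_ofReal.comp (cl_cont.comp (continuous_id.sub continuous_const))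

theorem S_low (n : ℕ) (t : ℝ) (h : (n : ℝ) ≤ t) : S n t = P n - P 0 := by
  induction n with
  | zero => simp [S]
  | succ n ih =>
    push_cast at h
    unfold S at ih ⊢
    rw [Finset.sum_range_succ, ih (by linarith), cl_one (by linarith)]
    push_cast
    ring

theorem S_high (i n : ℕ) (t : ℝ) (hin : i ≤ n) (h : t ≤ i) : S n t = S i t := by
  induction n, hin using Nat.le_induction with
  | base => rfl
  | succ n hn ih =>
    rw [← ih]
    unfold S
    rw [Finset.sum_range_succ]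
    have : (i : ℝ) ≤ n := by exact_mod_cast hn
    rw [cl_zero (by linarith)]
    simp

/-- the parametrization of the ten-gon -/
noncomputable def f0 (t : ℝ) : ℂ := P 0 + S 10 t

theorem f0_cont : Continuous f0 := continuous_const.add (S_cont 10)

theorem f0_seg (i : ℕ) (hi : i ≤ 9) (t : ℝ) (h0 : (i : ℝ) ≤ t) (h1 : t ≤ i + 1) :
    f0 t = P i + ((t - i : ℝ) : ℂ) * (P (i + 1) - P i) := by
  unfold f0
  rw [S_high (i + 1) 10 t (by omega) (by push_cast; linarith)]
  unfold S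
  rw [Finset.sum_range_succ]
  have := S_low i t h0
  unfold S at this
  rw [this, cl_mid (by linarith) (by linarith)]
  ring

theorem f0_per : f0 0 = f0 10 := by
  have h1 := f0_seg 0 (by norm_num) 0 (by norm_num) (by norm_num)
  have h2 := f0_seg 9 (by norm_num) 10 (by norm_num) (by norm_num)
  rw [h1, h2]
  have : P (9 + 1) = P 0 := rfl
  rw [this]
  push_cast
  ring

theorem f0_re (i : ℕ) (hi : i ≤ 9) (t : ℝ) (h0 : (i : ℝ) ≤ t) (h1 : t ≤ i + 1) :
    (f0 t).re = VX i + (t - i) * (VX (i + 1) - VX i) := by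
  rw [f0_seg i hi t h0 h1, Complex.add_re, Complex.re_ofReal_mul, Complex.sub_re]
  rfl

theorem f0_im (i : ℕ) (hi : i ≤ 9) (t : ℝ) (h0 : (i : ℝ) ≤ t) (h1 : t ≤ i + 1) :
    (f0 t).im = VY i + (t - i) * (VY (i + 1) - VY i) := by
  rw [f0_seg i hi t h0 h1, Complex.add_im, Complex.im_ofReal_mul, Complex.sub_im]
  rfl

theorem exists_seg (t : ℝ) (h0 : 0 ≤ t) (h1 : t < 10) :
    ∃ i : ℕ, i ≤ 9 ∧ (i : ℝ) ≤ t ∧ t < i + 1 := by
  refine ⟨⌊t⌋₊, ?_, Nat.floor_le h0, Nat.lt_floor_add_one t⟩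
  have : ⌊t⌋₊ < 10 := by
    rw [Nat.floor_lt h0]
    exact_mod_cast h1
  omega

theorem sep_ne (a b : Int) (i j : ℕ) (h : Sep a b i j) (s t : ℝ) (hs0 : 0 ≤ s) (hs1 : s < 1)
    (ht0 : 0 ≤ t) (ht1 : t < 1)
    (hx : (VX i + s * (VX (i + 1) - VX i) : ℝ) = VX j + t * (VX (j + 1) - VX j))
    (hy : (VY i + s * (VY (i + 1) - VY i) : ℝ) = VY j + t * (VY (j + 1) - VY j)) : False := by
  have key : ((1 - s) * (val a b i : ℝ) + s * (val a b (i + 1) : ℝ))
      = (1 - t) * (val a b j : ℝ) + t * (val a b (j + 1) : ℝ) := by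
    unfold val
    push_cast
    linear_combination (a : ℝ) * hx + (b : ℝ) * hy
  rcases h with ⟨h1, h2, h3, h4⟩ | ⟨h1, h2, h3, h4⟩
  · have h1' : (val a b i : ℝ) < val a b j := by exact_mod_cast h1
    have h2' : (val a b i : ℝ) < val a b (j + 1) := by exact_mod_cast h2
    have h3' : (val a b (i + 1) : ℝ) ≤ val a b j := by exact_mod_cast h3
    have h4' : (val a b (i + 1) : ℝ) ≤ val a b (j + 1) := by exact_mod_cast h4
    nlinarith [mul_pos (by linarith : (0 : ℝ) < 1 - s)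
        (by linarith : (0 : ℝ) < 1 - t), mul_nonneg ht0 (by linarith : (0 : ℝ) ≤ 1 - s),
      mul_nonneg hs0 ht0, mul_nonneg hs0 (by linarith : (0 : ℝ) ≤ 1 - t),
      mul_pos (mul_pos (by linarith : (0 : ℝ) < 1 - s) (by linarith : (0 : ℝ) < 1 - t))
        (sub_pos.mpr h1'),
      mul_nonneg (mul_nonneg ht0 (by linarith : (0 : ℝ) ≤ 1 - s)) (sub_pos.mpr h2').le,
      mul_nonneg (mul_nonneg hs0 (by linarith : (0 : ℝ) ≤ 1 - t)) (sub_nonneg.mpr h3'),
      mul_nonneg (mul_nonneg hs0 ht0) (sub_nonneg.mpr h4')]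
  · have h1' : (val a b j : ℝ) < val a b i := by exact_mod_cast h1
    have h2' : (val a b j : ℝ) < val a b (i + 1) := by exact_mod_cast h2
    have h3' : (val a b (j + 1) : ℝ) ≤ val a b i := by exact_mod_cast h3
    have h4' : (val a b (j + 1) : ℝ) ≤ val a b (i + 1) := by exact_mod_cast h4
    nlinarith [mul_pos (by linarith : (0 : ℝ) < 1 - s)
        (by linarith : (0 : ℝ) < 1 - t), mul_nonneg ht0 (by linarith : (0 : ℝ) ≤ 1 - s),
      mul_nonneg hs0 ht0, mul_nonneg hs0 (by linarith : (0 : ℝ) ≤ 1 - t),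
      mul_pos (mul_pos (by linarith : (0 : ℝ) < 1 - s) (by linarith : (0 : ℝ) < 1 - t))
        (sub_pos.mpr h1'),
      mul_nonneg (mul_nonneg ht0 (by linarith : (0 : ℝ) ≤ 1 - s)) (sub_nonneg.mpr h3'),
      mul_nonneg (mul_nonneg hs0 (by linarith : (0 : ℝ) ≤ 1 - t)) (sub_pos.mpr h2').le,
      mul_nonneg (mul_nonneg hs0 ht0) (sub_nonneg.mpr h4')]

theorem f0_inj (s t : ℝ) (hs0 : 0 ≤ s) (hs1 : s < 10) (ht0 : 0 ≤ t) (ht1 : t < 10)
    (h : f0 s = f0 t) : s = t := by
  obtain ⟨i, hi, i0, i1⟩ := exists_seg s hs0 hs1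
  obtain ⟨j, hj, j0, j1⟩ := exists_seg t ht0 ht1
  have hx : (VX i + (s - i) * (VX (i + 1) - VX i) : ℝ) = VX j + (t - j) * (VX (j + 1) - VX j) := by
    rw [← f0_re i hi s i0 i1.le, ← f0_re j hj t j0 j1.le, h]
  have hy : (VY i + (s - i) * (VY (i + 1) - VY i) : ℝ) = VY j + (t - j) * (VY (j + 1) - VY j) := by
    rw [← f0_im i hi s i0 i1.le, ← f0_im j hj t j0 j1.le, h]
  rcases lt_trichotomy i j with hij | hij | hij
  · exact (sep_ne _ _ i j (sep_all i (by omega) j (by omega) hij) (s - i) (t - j) (by linarith)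
      (by linarith) (by linarith) (by linarith) hx hy).elim
  · subst hij
    rcases edge_ne i (by omega) with h1 | h1
    · have h2 : ((VY (i + 1) - VY i : ℤ) : ℝ) ≠ 0 := by exact_mod_cast h1
      have h3 : ((VY (i + 1) - VY i : ℤ) : ℝ) * (s - t) = 0 := by
        push_cast
        linarith
      have := (mul_eq_zero.mp h3).resolve_left h2
      linarith
    · have h2 : ((VX (i + 1) - VX i : ℤ) : ℝ) ≠ 0 := by exact_mod_cast h1
      have h3 : ((VX (i + 1) - VX i : ℤ) : ℝ) * (s - t) = 0 := by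
        push_cast
        linarith
      have := (mul_eq_zero.mp h3).resolve_left h2
      linarith
  · exact (sep_ne _ _ j i (sep_all j (by omega) i (by omega) hij) (t - j) (s - i) (by linarith)
      (by linarith) (by linarith) (by linarith) hx.symm hy.symm).elim

instance fact10 : Fact ((0 : ℝ) < 10) := ⟨by norm_num⟩

/-- the ten-gon as a map from the circle -/
noncomputable def curve (z : Circle) : ℂ :=
  AddCircle.liftIco (10 : ℝ) 0 f0 ((AddCircle.homeomorphCircle (T := 10) (by norm_num)).symm z)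

theorem curve_cont : Continuous curve := by
  unfold curve
  exact (AddCircle.liftIco_zero_continuous f0_per f0_cont.continuousOn).comp
    (Homeomorph.continuous _)

theorem curve_inj : Function.Injective curve := by
  intro z w h
  unfold curve at h
  set u := (AddCircle.homeomorphCircle (T := 10) (by norm_num)).symm z with hu
  set v := (AddCircle.homeomorphCircle (T := 10) (by norm_num)).symm w with hv
  obtain ⟨s, hs, hs'⟩ := AddCircle.eq_coe_Ico u
  obtain ⟨t, ht, ht'⟩ := AddCircle.eq_coe_Ico v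
  rw [← hs', ← ht', AddCircle.liftIco_zero_coe_apply hs, AddCircle.liftIco_zero_coe_apply ht] at h
  have hst := f0_inj s t hs.1 hs.2 ht.1 ht.2 h
  have huv : u = v := by rw [← hs', ← ht', hst]
  rw [hu, hv] at huv
  exact (Homeomorph.injective _) huv

theorem curve_range (p : ℂ) (hp : p ∈ Set.range curve) : ∃ e : ℕ, e ≤ 9 ∧ OnE p.re p.im e := by
  obtain ⟨z, rfl⟩ := hp
  unfold curve
  set u := (AddCircle.homeomorphCircle (T := 10) (by norm_num)).symm z with hu
  obtain ⟨s, hs, hs'⟩ := AddCircle.eq_coe_Ico u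
  rw [← hs', AddCircle.liftIco_zero_coe_apply hs]
  obtain ⟨i, hi, i0, i1⟩ := exists_seg s hs.1 hs.2
  exact ⟨i, hi, s - i, by linarith, by linarith, f0_re i hi s i0 i1.le, f0_im i hi s i0 i1.le⟩

end Pool.Agent.H558R3.Hex
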