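import Mathlib

/-!
# A finite certificate checker for inscribed affinely regular hexagons of a polygon

The polygon is a ten-gon with integer vertices `(VX i, VY i)`.  A search tree over the edges
carrying the six vertices of a putative hexagon is encoded by a list of natural numbers.
-/

set_option autoImplicit false

namespace Pool.Agent.H558R3.Hex

/-- abscissae of the vertices of the ten-gon (vertex `10` is vertex `0`) -/
def VX : Nat → Int
  | 0 => 17797
  | 1 => 1000
  | 2 => 2774
  | 3 => 2859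
  | 4 => 1988
  | 5 => -15298
  | 6 => -1000
  | 7 => -2497
  | 8 => -2859
  | 9 => -1885
  | _ => 17797

/-- ordinates of the vertices of the ten-gon -/
def VY : Nat → Int
  | 0 => 11340
  | 1 => 0
  | 2 => 984
  | 3 => 0
  | 4 => 74
  | 5 => -9842
  | 6 => 0
  | 7 => -817
  | 8 => 0
  | 9 => -15
  | _ => 11340

/-- a box of edge assignments -/
structure St where
  l0 : Nat
  h0 : Nat
  l1 : Nat
  h1 : Nat
  l2 : Nat
  h2 : Nat
  l3 : Nat
  h3 : Nat
  l4 : Nat
  h4 : Nat
  l5 : Nat
  h5 : Nat

def St.lo (s : St) : Nat → Nat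
  | 0 => s.l0
  | 1 => s.l1
  | 2 => s.l2
  | 3 => s.l3
  | 4 => s.l4
  | _ => s.l5

def St.hi (s : St) : Nat → Nat
  | 0 => s.h0
  | 1 => s.h1
  | 2 => s.h2
  | 3 => s.h3
  | 4 => s.h4
  | _ => s.h5

def val (ax ay : Int) (v : Nat) : Int := ax * VX v + ay * VY v

def mn2 (a b : Int) : Int :=
  match b - a with
  | Int.ofNat _ => a
  | Int.negSucc _ => b

/-- minimum of the functional over the vertices `l, …, l + n` -/
def mn (ax ay : Int) (l : Nat) : Nat → Int
  | 0 => val ax ay l
  | n + 1 => mn2 (mn ax ay l n) (val ax ay (l + n + 1))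

def pos : Int → Bool
  | Int.ofNat 0 => false
  | Int.ofNat (_ + 1) => true
  | Int.negSucc _ => false

/-- Farkas certificate -/
def cert (s : St) (a b c d e f : Int) : Bool :=
  pos (mn (a + c + e) (b + d + f) s.l0 (s.h0 + 1 - s.l0)
    + mn (-a - e) (-b - f) s.l1 (s.h1 + 1 - s.l1)
    + mn (e - c) (f - d) s.l2 (s.h2 + 1 - s.l2)
    + mn (a + c - e) (b + d - f) s.l3 (s.h3 + 1 - s.l3)
    + mn (e - a) (f - b) s.l4 (s.h4 + 1 - s.l4)
    + mn (-c - e) (-d - f) s.l5 (s.h5 + 1 - s.l5))

/-- decode a signed digit in base `2 ^ 18` -/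
def dig (c : Nat) : Int := Int.subNatNat (c % 262144) 131072

def certN (s : St) (c : Nat) : Bool :=
  cert s (dig c) (dig (c / 262144)) (dig (c / 262144 ^ 2)) (dig (c / 262144 ^ 3))
    (dig (c / 262144 ^ 4)) (dig (c / 262144 ^ 5))

/-- three vertices of the hexagon on one edge -/
def deg1 (s : St) (a b c : Nat) : Bool :=
  Nat.blt a b && Nat.blt b c && Nat.blt c 6 &&
  Nat.beq (s.lo a) (s.hi a) && Nat.beq (s.lo b) (s.lo a) && Nat.beq (s.hi b) (s.lo a) &&
  Nat.beq (s.lo c) (s.lo a) && Nat.beq (s.hi c) (s.lo a) && Nat.blt (s.lo a) 10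

/-- pairs of parallel chords of the hexagon -/
def tab : Nat → Nat × Nat × Nat × Nat
  | 0 => (0, 1, 3, 4)
  | 1 => (0, 1, 2, 5)
  | 2 => (3, 4, 2, 5)
  | 3 => (1, 2, 4, 5)
  | 4 => (1, 2, 0, 3)
  | 5 => (4, 5, 0, 3)
  | 6 => (2, 3, 5, 0)
  | 7 => (2, 3, 1, 4)
  | 8 => (5, 0, 1, 4)
  | 9 => (0, 2, 3, 5)
  | 10 => (1, 3, 4, 0)
  | _ => (2, 4, 5, 1)

/-- cross product of two edge directions -/
def crossE (a b : Nat) : Int :=
  (VX (a + 1) - VX a) * (VY (b + 1) - VY b) - (VY (a + 1) - VY a) * (VX (b + 1) - VX b)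

def isZ : Int → Bool
  | Int.ofNat 0 => true
  | Int.ofNat (_ + 1) => false
  | Int.negSucc _ => false

def deg2' (s : St) (i j k l : Nat) : Bool :=
  Nat.beq (s.lo i) (s.hi i) && Nat.beq (s.lo j) (s.lo i) && Nat.beq (s.hi j) (s.lo i) &&
  Nat.beq (s.lo k) (s.hi k) && Nat.beq (s.lo l) (s.lo k) && Nat.beq (s.hi l) (s.lo k) &&
  !(isZ (crossE (s.lo i) (s.lo k)))

/-- two parallel chords of the hexagon on two non parallel edges -/
def deg2 (s : St) (q : Nat) : Bool :=
  deg2' s (tab q).1 (tab q).2.1 (tab q).2.2.1 (tab q).2.2.2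

/-- the flat hexagon -/
def deg3 (s : St) : Bool :=
  Nat.ble s.h0 1 && Nat.ble 2 s.l1 && Nat.ble s.h1 3 &&
  Nat.beq s.l2 4 && Nat.beq s.h2 4 &&
  Nat.ble 5 s.l3 && Nat.ble s.h3 6 &&
  Nat.ble 7 s.l4 && Nat.ble s.h4 8 &&
  Nat.beq s.l5 9 && Nat.beq s.h5 9

/-- leaf check.  Codes: `0` symmetry, `300 + …` three on an edge, `600 + q` parallel chords,
`700` flat, at least `2 ^ 20` Farkas certificates. -/
def leaf (c : Nat) (s : St) : Bool :=
  match Nat.ble 1048576 c with
  | true => certN s (c - 1048576)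
  | false =>
    match Nat.beq c 0 with
    | true => Nat.blt s.h5 s.l1
    | false =>
      match Nat.beq c 700 with
      | true => deg3 s
      | false =>
        match Nat.ble 600 c with
        | true => deg2 s (c - 600)
        | false => deg1 s ((c - 300) / 36) ((c - 300) / 6 % 6) ((c - 300) % 6)

/-- run the checker -/
def run : Nat → List Nat → St → Option (List Nat)
  | 0, _, _ => none
  | _ + 1, [], _ => none
  | n + 1, c :: cs, s =>
    match c with
    | 1 =>
      match run n cs { s with h1 := (s.l1 + s.h1) / 2 } with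
      | none => none
      | some r => run n r { s with l1 := (s.l1 + s.h1) / 2 + 1 }
    | 2 =>
      match run n cs { s with h2 := (s.l2 + s.h2) / 2 } with
      | none => none
      | some r => run n r { s with l2 := (s.l2 + s.h2) / 2 + 1 }
    | 3 =>
      match run n cs { s with h3 := (s.l3 + s.h3) / 2 } with
      | none => none
      | some r => run n r { s with l3 := (s.l3 + s.h3) / 2 + 1 }
    | 4 =>
      match run n cs { s with h4 := (s.l4 + s.h4) / 2 } with
      | none => none
      | some r => run n r { s with l4 := (s.l4 + s.h4) / 2 + 1 }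
    | 5 =>
      match run n cs { s with h5 := (s.l5 + s.h5) / 2 } with
      | none => none
      | some r => run n r { s with l5 := (s.l5 + s.h5) / 2 + 1 }
    | c =>
      match leaf c s with
      | true => some cs
      | false => none

/-- initial box: vertex `0` on edge `i`, the others on edges `i, …, 9` -/
def ini (i : Nat) : St :=
  { l0 := i, h0 := i, l1 := i, h1 := 9, l2 := i, h2 := 9, l3 := i, h3 := 9,
    l4 := i, h4 := 9, l5 := i, h5 := 9 }

def chk (i : Nat) (codes : List Nat) : Bool :=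
  match run 40 codes (ini i) with
  | some _ => true
  | none => false

end Pool.Agent.H558R3.Hex
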