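import Pool.Agent.H558R3.HexCore
import Pool.Agent.H558R3.HexCurve

/-!
# The ten-gon has no inscribed affinely regular hexagon
-/

set_option autoImplicit false

namespace Pool.Agent.H558R3.Hex

/-- the primitive sixth root of unity -/
noncomputable def om : ℂ := Complex.exp (2 * (Real.pi : ℂ) * Complex.I / 6)

theorem om_eq : om = ⟨1 / 2, Real.sqrt 3 / 2⟩ := by
  unfold om
  have h : 2 * (Real.pi : ℂ) * Complex.I / 6 = ((Real.pi / 3 : ℝ) : ℂ) * Complex.I := by
    push_cast
    ring
  rw [h, Complex.exp_mul_I, ← Complex.ofReal_cos, ← Complex.ofReal_sin, Real.cos_pi_div_three,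
    Real.sin_pi_div_three]
  apply Complex.ext
  · simp
  · simp

theorem om_re : om.re = 1 / 2 := by rw [om_eq]

theorem om_im : om.im = Real.sqrt 3 / 2 := by rw [om_eq]

theorem om_sq : om ^ 2 = om - 1 := by
  have h3 : Real.sqrt 3 * Real.sqrt 3 = 3 := Real.mul_self_sqrt (by norm_num)
  rw [pow_two]
  apply Complex.ext
  · rw [Complex.mul_re, Complex.sub_re, om_re, om_im, Complex.one_re]
    linear_combination (-1 / 4 : ℝ) * h3
  · rw [Complex.mul_im, Complex.sub_im, om_re, om_im, Complex.one_im]
    ring

theorem exp_eq (k : ℕ) :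
    Complex.exp (2 * (Real.pi : ℂ) * Complex.I * (k : ℂ) / 6) = om ^ k := by
  unfold om
  rw [← Complex.exp_nat_mul]
  congr 1
  ring

theorem aff_eq (A : AffineEquiv ℝ ℂ ℂ) (z : ℂ) : A z = A.linear z + A 0 := by
  have h := A.map_vadd 0 z
  simpa using h

theorem det_ne (A : AffineEquiv ℝ ℂ ℂ) :
    (A.linear 1).re * (A.linear om).im - (A.linear om).re * (A.linear 1).im ≠ 0 := by
  intro h
  have hs : Real.sqrt 3 / 2 ≠ 0 := by positivity
  have aux : ∀ a b : ℝ, a • A.linear 1 - b • A.linear om = 0 → a = 0 ∧ b = 0 := by
    intro a b hab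
    have h1 : A.linear (a • (1 : ℂ) - b • om) = 0 := by
      rw [map_sub, map_smul, map_smul]
      exact hab
    have h2 : a • (1 : ℂ) - b • om = 0 := by
      apply A.linear.injective
      rw [h1, map_zero]
    have him := congrArg Complex.im h2
    have hre := congrArg Complex.re h2
    rw [Complex.sub_im, Complex.smul_im, Complex.smul_im, Complex.one_im, om_im,
      Complex.zero_im, smul_eq_mul, smul_eq_mul] at him
    rw [Complex.sub_re, Complex.smul_re, Complex.smul_re, Complex.one_re, om_re,
      Complex.zero_re, smul_eq_mul, smul_eq_mul] at hre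
    have hb : b = 0 := by
      have : b * (Real.sqrt 3 / 2) = 0 := by linarith
      exact (mul_eq_zero.mp this).resolve_right hs
    refine ⟨?_, hb⟩
    rw [hb] at hre
    linarith
  have e1 := aux (A.linear om).re (A.linear 1).re (by
    apply Complex.ext
    · rw [Complex.sub_re, Complex.smul_re, Complex.smul_re, smul_eq_mul, smul_eq_mul,
        Complex.zero_re]
      ring
    · rw [Complex.sub_im, Complex.smul_im, Complex.smul_im, smul_eq_mul, smul_eq_mul,
        Complex.zero_im]
      linarith)
  have e2 := aux (A.linear om).im (A.linear 1).im (by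
    apply Complex.ext
    · rw [Complex.sub_re, Complex.smul_re, Complex.smul_re, smul_eq_mul, smul_eq_mul,
        Complex.zero_re]
      linarith
    · rw [Complex.sub_im, Complex.smul_im, Complex.smul_im, smul_eq_mul, smul_eq_mul,
        Complex.zero_im]
      ring)
  have h0 : A.linear 1 = 0 := Complex.ext e1.2 e2.2
  have h1 : (1 : ℂ) = 0 := by
    apply A.linear.injective
    rw [h0, map_zero]
  exact one_ne_zero h1

theorem final (A : AffineEquiv ℝ ℂ ℂ)
    (hA : ∀ k : Fin 6,
      A (Complex.exp (2 * (Real.pi : ℂ) * Complex.I * ((k : ℕ) : ℂ) / 6)) ∈ Set.range curve) :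
    False := by
  set U := A.linear 1 with hU
  set W := A.linear om with hW
  set c := A 0 with hc
  have hdet := det_ne A
  rw [← hU, ← hW] at hdet
  set p : Fin 6 → ℂ := fun k => A (om ^ (k : ℕ)) with hp
  have hr : ∀ k, p k ∈ Set.range curve := by
    intro k
    have := hA k
    rw [exp_eq] at this
    exact this
  have p0 : p 0 = U + c := by
    rw [hp]
    show A (om ^ 0) = _
    rw [pow_zero, aff_eq]
  have p1 : p 1 = W + c := by
    rw [hp]
    show A (om ^ 1) = _
    rw [pow_one, aff_eq]
  have p2 : p 2 = W - U + c := by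
    rw [hp]
    show A (om ^ 2) = _
    rw [om_sq, aff_eq, map_sub]
  have p3 : p 3 = -U + c := by
    rw [hp]
    show A (om ^ 3) = _
    have : om ^ 3 = -1 := by
      linear_combination (om + 1) * om_sq
    rw [this, aff_eq, map_neg]
  have p4 : p 4 = -W + c := by
    rw [hp]
    show A (om ^ 4) = _
    have : om ^ 4 = -om := by
      linear_combination (om ^ 2 + om) * om_sq
    rw [this, aff_eq, map_neg]
  have p5 : p 5 = U - W + c := by
    rw [hp]
    show A (om ^ 5) = _
    have : om ^ 5 = 1 - om := by
      linear_combination (om ^ 3 + om ^ 2 - 1) * om_sq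
    rw [this, aff_eq, map_sub]
  have hrec : ∀ k, p (k + 3) = p k + 2 * (p (k + 2) - p (k + 1)) := by
    intro k
    fin_cases k
    · show p 3 = p 0 + 2 * (p 2 - p 1)
      rw [p3, p0, p2, p1]; ring
    · show p 4 = p 1 + 2 * (p 3 - p 2)
      rw [p4, p1, p3, p2]; ring
    · show p 5 = p 2 + 2 * (p 4 - p 3)
      rw [p5, p2, p4, p3]; ring
    · show p 0 = p 3 + 2 * (p 5 - p 4)
      rw [p0, p3, p5, p4]; ring
    · show p 1 = p 4 + 2 * (p 0 - p 5)
      rw [p1, p4, p0, p5]; ring
    · show p 2 = p 5 + 2 * (p 1 - p 0)
      rw [p2, p5, p1, p0]; ring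
  have hx : Rec (fun k => (p k).re) := by
    intro k
    have := congrArg Complex.re (hrec k)
    simpa using this
  have hy : Rec (fun k => (p k).im) := by
    intro k
    have := congrArg Complex.im (hrec k)
    simpa using this
  have hnd : NDall (fun k => (p k).re) (fun k => (p k).im) := by
    intro k h0
    apply hdet
    fin_cases k
    · change ((p 1).re - (p 0).re) * ((p 2).im - (p 0).im)
        - ((p 2).re - (p 0).re) * ((p 1).im - (p 0).im) = 0 at h0
      rw [p0, p1, p2] at h0
      simp only [Complex.add_re, Complex.add_im, Complex.sub_re, Complex.sub_im, Complex.neg_re,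
        Complex.neg_im] at h0
      linear_combination h0
    · change ((p 2).re - (p 1).re) * ((p 3).im - (p 1).im)
        - ((p 3).re - (p 1).re) * ((p 2).im - (p 1).im) = 0 at h0
      rw [p3, p1, p2] at h0
      simp only [Complex.add_re, Complex.add_im, Complex.sub_re, Complex.sub_im, Complex.neg_re,
        Complex.neg_im] at h0
      linear_combination h0
    · change ((p 3).re - (p 2).re) * ((p 4).im - (p 2).im)
        - ((p 4).re - (p 2).re) * ((p 3).im - (p 2).im) = 0 at h0
      rw [p3, p4, p2] at h0
      simp only [Complex.add_re, Complex.add_im, Complex.sub_re, Complex.sub_im, Complex.neg_re,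
        Complex.neg_im] at h0
      linear_combination h0
    · change ((p 4).re - (p 3).re) * ((p 5).im - (p 3).im)
        - ((p 5).re - (p 3).re) * ((p 4).im - (p 3).im) = 0 at h0
      rw [p3, p4, p5] at h0
      simp only [Complex.add_re, Complex.add_im, Complex.sub_re, Complex.sub_im, Complex.neg_re,
        Complex.neg_im] at h0
      linear_combination h0
    · change ((p 5).re - (p 4).re) * ((p 0).im - (p 4).im)
        - ((p 0).re - (p 4).re) * ((p 5).im - (p 4).im) = 0 at h0
      rw [p0, p4, p5] at h0
      simp only [Complex.add_re, Complex.add_im, Complex.sub_re, Complex.sub_im, Complex.neg_re,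
        Complex.neg_im] at h0
      linear_combination h0
    · change ((p 0).re - (p 5).re) * ((p 1).im - (p 5).im)
        - ((p 1).re - (p 5).re) * ((p 0).im - (p 5).im) = 0 at h0
      rw [p0, p1, p5] at h0
      simp only [Complex.add_re, Complex.add_im, Complex.sub_re, Complex.sub_im, Complex.neg_re,
        Complex.neg_im] at h0
      linear_combination h0
  choose e he ho using fun k => curve_range (p k) (hr k)
  exact hex_core _ _ hx hy hnd e he ho

end Pool.Agent.H558R3.Hex
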