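import Pool.Agent.H558R3.HexDefs

/-!
# Soundness of the certificate checker
-/

set_option autoImplicit false

namespace Pool.Agent.H558R3.Hex

/-- the recurrence satisfied by the vertices of an affinely regular hexagon -/
def Rec (x : Fin 6 → ℝ) : Prop := ∀ k, x (k + 3) = x k + 2 * (x (k + 2) - x (k + 1))

/-- the point `(x, y)` lies on the edge `e` -/
def OnE (x y : ℝ) (e : ℕ) : Prop :=
  ∃ t : ℝ, 0 ≤ t ∧ t ≤ 1 ∧ x = VX e + t * (VX (e + 1) - VX e) ∧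
    y = VY e + t * (VY (e + 1) - VY e)

theorem mn2_le_left (a b : Int) : mn2 a b ≤ a := by
  unfold mn2
  split
  · exact le_refl _
  · rename_i k h
    have : b - a < 0 := by rw [h]; exact Int.negSucc_lt_zero k
    omega

theorem mn2_le_right (a b : Int) : mn2 a b ≤ b := by
  unfold mn2
  split
  · rename_i k h
    have : 0 ≤ b - a := by rw [h]; exact Int.natCast_nonneg k
    omega
  · exact le_refl _

theorem mn_le (ax ay : Int) (l n v : ℕ) (h1 : l ≤ v) (h2 : v ≤ l + n) :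
    mn ax ay l n ≤ val ax ay v := by
  induction n with
  | zero =>
    have : v = l := by omega
    subst this
    exact le_refl _
  | succ n ih =>
    rcases Nat.lt_or_ge v (l + n + 1) with h | h
    · exact le_trans (mn2_le_left _ _) (ih (by omega))
    · have : v = l + n + 1 := by omega
      subst this
      exact mn2_le_right _ _

theorem mn_le_real (ax ay : Int) (l h e : ℕ) (x y : ℝ) (h1 : l ≤ e) (h2 : e ≤ h)
    (ho : OnE x y e) : ((mn ax ay l (h + 1 - l) : ℤ) : ℝ) ≤ ax * x + ay * y := by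
  obtain ⟨t, ht0, ht1, hx, hy⟩ := ho
  have e1 := mn_le ax ay l (h + 1 - l) e h1 (by omega)
  have e2 := mn_le ax ay l (h + 1 - l) (e + 1) (by omega) (by omega)
  unfold val at e1 e2
  have e1' : ((mn ax ay l (h + 1 - l) : ℤ) : ℝ) ≤ ax * VX e + ay * VY e := by exact_mod_cast e1
  have e2' : ((mn ax ay l (h + 1 - l) : ℤ) : ℝ) ≤ ax * VX (e + 1) + ay * VY (e + 1) := by
    exact_mod_cast e2
  rw [hx, hy]
  nlinarith [mul_le_mul_of_nonneg_left e1' (by linarith : (0 : ℝ) ≤ 1 - t),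
    mul_le_mul_of_nonneg_left e2' ht0]

theorem pos_iff (z : Int) (h : pos z = true) : 0 < z := by
  unfold pos at h
  split at h
  · cases h
  · rename_i k
    exact Int.natCast_pos.mpr (Nat.succ_pos k)
  · cases h

/-- membership of an edge assignment in a box -/
def Box (s : St) (e : Fin 6 → ℕ) : Prop :=
  (s.l0 ≤ e 0 ∧ e 0 ≤ s.h0) ∧ (s.l1 ≤ e 1 ∧ e 1 ≤ s.h1) ∧ (s.l2 ≤ e 2 ∧ e 2 ≤ s.h2) ∧
  (s.l3 ≤ e 3 ∧ e 3 ≤ s.h3) ∧ (s.l4 ≤ e 4 ∧ e 4 ≤ s.h4) ∧ (s.l5 ≤ e 5 ∧ e 5 ≤ s.h5)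

/-- three linear relations -/
def Rel (x : Fin 6 → ℝ) : Prop :=
  x 3 = x 0 + 2 * (x 2 - x 1) ∧ x 4 = x 1 + 2 * (x 3 - x 2) ∧ x 5 = x 2 + 2 * (x 4 - x 3)

theorem Rec.rel {x : Fin 6 → ℝ} (h : Rec x) : Rel x := by
  refine ⟨?_, ?_, ?_⟩
  · simpa using h 0
  · simpa using h 1
  · simpa using h 2

theorem cert_sound (s : St) (a b c d p q : Int) (hc : cert s a b c d p q = true)
    (x y : Fin 6 → ℝ) (hx : Rel x) (hy : Rel y) (e : Fin 6 → ℕ) (hb : Box s e)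
    (ho : ∀ k, OnE (x k) (y k) (e k)) : False := by
  unfold cert at hc
  have hp := pos_iff _ hc
  obtain ⟨⟨a0, b0⟩, ⟨a1, b1⟩, ⟨a2, b2⟩, ⟨a3, b3⟩, ⟨a4, b4⟩, ⟨a5, b5⟩⟩ := hb
  have f0 := mn_le_real (a + c + p) (b + d + q) s.l0 s.h0 (e 0) _ _ a0 b0 (ho 0)
  have f1 := mn_le_real (-a - p) (-b - q) s.l1 s.h1 (e 1) _ _ a1 b1 (ho 1)
  have f2 := mn_le_real (p - c) (q - d) s.l2 s.h2 (e 2) _ _ a2 b2 (ho 2)
  have f3 := mn_le_real (a + c - p) (b + d - q) s.l3 s.h3 (e 3) _ _ a3 b3 (ho 3)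
  have f4 := mn_le_real (p - a) (q - b) s.l4 s.h4 (e 4) _ _ a4 b4 (ho 4)
  have f5 := mn_le_real (-c - p) (-d - q) s.l5 s.h5 (e 5) _ _ a5 b5 (ho 5)
  have hp' : (0 : ℝ) < ((mn (a + c + p) (b + d + q) s.l0 (s.h0 + 1 - s.l0) : ℤ) : ℝ)
    + ((mn (-a - p) (-b - q) s.l1 (s.h1 + 1 - s.l1) : ℤ) : ℝ)
    + ((mn (p - c) (q - d) s.l2 (s.h2 + 1 - s.l2) : ℤ) : ℝ)
    + ((mn (a + c - p) (b + d - q) s.l3 (s.h3 + 1 - s.l3) : ℤ) : ℝ)
    + ((mn (p - a) (q - b) s.l4 (s.h4 + 1 - s.l4) : ℤ) : ℝ)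
    + ((mn (-c - p) (-d - q) s.l5 (s.h5 + 1 - s.l5) : ℤ) : ℝ) := by exact_mod_cast hp
  push_cast at f0 f1 f2 f3 f4 f5
  obtain ⟨hx3, hx4, hx5⟩ := hx
  obtain ⟨hy3, hy4, hy5⟩ := hy
  have key : ((a : ℝ) + c + p) * x 0 + (b + d + q) * y 0 + ((-a - p) * x 1 + (-b - q) * y 1)
      + ((p - c) * x 2 + (q - d) * y 2) + ((a + c - p) * x 3 + (b + d - q) * y 3)
      + ((p - a) * x 4 + (q - b) * y 4) + ((-c - p) * x 5 + (-d - q) * y 5) = 0 := by
    rw [hx5, hx4, hx3, hy5, hy4, hy3]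
    ring
  linarith

/-- the hexagon is nondegenerate -/
def ND (x y : Fin 6 → ℝ) : Prop :=
  (x 1 - x 0) * (y 2 - y 0) - (x 2 - x 0) * (y 1 - y 0) ≠ 0

theorem nd_contra {x y : Fin 6 → ℝ} (hnd : ND x y) (n m : ℝ) (hn : n ≠ 0 ∨ m ≠ 0)
    (h1 : n * (x 1 - x 0) + m * (y 1 - y 0) = 0)
    (h2 : n * (x 2 - x 0) + m * (y 2 - y 0) = 0) : False := by
  apply hnd
  rcases hn with h | h
  · apply (mul_eq_zero.mp (?_ : n * _ = 0)).resolve_left h
    linear_combination (y 2 - y 0) * h1 - (y 1 - y 0) * h2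
  · apply (mul_eq_zero.mp (?_ : m * _ = 0)).resolve_left h
    linear_combination (x 1 - x 0) * h2 - (x 2 - x 0) * h1

/-- the line equation of an edge -/
theorem OnE.line {x y : ℝ} {e : ℕ} (h : OnE x y e) :
    ((VY (e + 1) - VY e : ℤ) : ℝ) * x - ((VX (e + 1) - VX e : ℤ) : ℝ) * y
      = ((VY (e + 1) - VY e : ℤ) : ℝ) * VX e - ((VX (e + 1) - VX e : ℤ) : ℝ) * VY e := by
  obtain ⟨t, -, -, hx, hy⟩ := h
  rw [hx, hy]
  push_cast
  ring

theorem edge_ne (e : ℕ) (he : e < 10) : (VY (e + 1) - VY e : ℤ) ≠ 0 ∨ (VX (e + 1) - VX e : ℤ) ≠ 0 := by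
  interval_cases e <;> decide

theorem Rel.add {x y : Fin 6 → ℝ} (hx : Rel x) (hy : Rel y) (a b : ℝ) :
    Rel (fun k => a * x k - b * y k) := by
  obtain ⟨hx3, hx4, hx5⟩ := hx
  obtain ⟨hy3, hy4, hy5⟩ := hy
  refine ⟨?_, ?_, ?_⟩
  · show a * x 3 - b * y 3 = (a * x 0 - b * y 0) + 2 * ((a * x 2 - b * y 2) - (a * x 1 - b * y 1))
    rw [hx3, hy3]; ring
  · show a * x 4 - b * y 4 = (a * x 1 - b * y 1) + 2 * ((a * x 3 - b * y 3) - (a * x 2 - b * y 2))
    rw [hx4, hy4]; ring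
  · show a * x 5 - b * y 5 = (a * x 2 - b * y 2) + 2 * ((a * x 4 - b * y 4) - (a * x 3 - b * y 3))
    rw [hx5, hy5]; ring

theorem three_eq {f : Fin 6 → ℝ} (hf : Rel f) (a b c : Fin 6) (hab : a < b) (hbc : b < c)
    (h1 : f a = f b) (h2 : f a = f c) : f 1 = f 0 ∧ f 2 = f 0 := by
  obtain ⟨h3, h4, h5⟩ := hf
  fin_cases a <;> fin_cases b <;> first | (exact absurd hab (by decide)) | skip
  all_goals fin_cases c <;> first | (exact absurd hbc (by decide)) | skip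
  all_goals
    simp only [Fin.zero_eta, Fin.mk_one, Fin.reduceFinMk] at h1 h2
    constructor <;> linarith

theorem St.lo_le {s : St} {e : Fin 6 → ℕ} (hb : Box s e) (k : Fin 6) :
    s.lo k ≤ e k ∧ e k ≤ s.hi k := by
  obtain ⟨b0, b1, b2, b3, b4, b5⟩ := hb
  fin_cases k
  · exact b0
  · exact b1
  · exact b2
  · exact b3
  · exact b4
  · exact b5

theorem deg1_sound (s : St) (a b c : ℕ) (hc : deg1 s a b c = true)
    (x y : Fin 6 → ℝ) (hx : Rel x) (hy : Rel y) (hnd : ND x y) (e : Fin 6 → ℕ) (hb : Box s e)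
    (ho : ∀ k, OnE (x k) (y k) (e k)) : False := by
  unfold deg1 at hc
  simp only [Bool.and_eq_true, Nat.blt_eq, Nat.beq_eq] at hc
  obtain ⟨⟨⟨⟨⟨⟨⟨⟨hab, hbc⟩, hc6⟩, h1⟩, h2⟩, h3⟩, h4⟩, h5⟩, h10⟩ := hc
  have ea := St.lo_le hb ⟨a, by omega⟩
  have eb := St.lo_le hb ⟨b, by omega⟩
  have ec := St.lo_le hb ⟨c, hc6⟩
  simp only at ea eb ec
  have ha' : e ⟨a, by omega⟩ = s.lo a := by omega
  have hb' : e ⟨b, by omega⟩ = s.lo a := by omega
  have hc' : e ⟨c, hc6⟩ = s.lo a := by omega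
  have la := (ho ⟨a, by omega⟩).line
  have lb := (ho ⟨b, by omega⟩).line
  have lc := (ho ⟨c, hc6⟩).line
  rw [ha'] at la
  rw [hb'] at lb
  rw [hc'] at lc
  set n : ℝ := ((VY (s.lo a + 1) - VY (s.lo a) : ℤ) : ℝ) with hn
  set m : ℝ := ((VX (s.lo a + 1) - VX (s.lo a) : ℤ) : ℝ) with hm
  have hf := hx.add hy n m
  have h3' := three_eq hf ⟨a, by omega⟩ ⟨b, by omega⟩ ⟨c, hc6⟩ hab hbc (la.trans lb.symm)
    (la.trans lc.symm)
  have hne : n ≠ 0 ∨ -m ≠ 0 := by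
    rcases edge_ne (s.lo a) h10 with h | h
    · left
      rw [hn]
      exact_mod_cast h
    · right
      rw [hm, neg_ne_zero]
      exact_mod_cast h
  exact nd_contra hnd n (-m) hne (by linarith [h3'.1]) (by linarith [h3'.2])

/-- two vertices of the hexagon coincide: degenerate -/
theorem two_eq {x y : Fin 6 → ℝ} (hx : Rel x) (hy : Rel y) (hnd : ND x y) (i j : Fin 6)
    (hij : i ≠ j) (h1 : x i = x j) (h2 : y i = y j) : False := by
  obtain ⟨hx3, hx4, hx5⟩ := hx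
  obtain ⟨hy3, hy4, hy5⟩ := hy
  apply hnd
  fin_cases i <;> fin_cases j <;> first | (exact absurd rfl hij) | skip
  all_goals
    simp only [Fin.zero_eta, Fin.mk_one, Fin.reduceFinMk] at h1 h2
    first
      | (have e1 : x 1 = x 0 := by linarith
         have e2 : y 1 = y 0 := by linarith
         rw [e1, e2]; ring)
      | (have e1 : x 2 = x 0 := by linarith
         have e2 : y 2 = y 0 := by linarith
         rw [e1, e2]; ring)
      | (have e1 : x 2 = x 1 := by linarith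
         have e2 : y 2 = y 1 := by linarith
         rw [e1, e2]; ring)
      | (have e1 : x 2 = 2 * x 1 - x 0 := by linarith
         have e2 : y 2 = 2 * y 1 - y 0 := by linarith
         rw [e1, e2]; ring)
      | (have e1 : x 1 = (2 * x 2 + x 0) / 3 := by linarith
         have e2 : y 1 = (2 * y 2 + y 0) / 3 := by linarith
         rw [e1, e2]; ring)
      | (have e1 : x 1 = (x 2 + 2 * x 0) / 3 := by linarith
         have e2 : y 1 = (y 2 + 2 * y 0) / 3 := by linarith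
         rw [e1, e2]; ring)

/-- parallel chords -/
theorem tab_par (q : ℕ) :
    ∃ i j k l : Fin 6, (tab q) = ((i : ℕ), (j : ℕ), (k : ℕ), (l : ℕ)) ∧ i ≠ j ∧
      ∃ m : ℝ, ∀ x : Fin 6 → ℝ, Rel x → x i - x j = m * (x k - x l) := by
  have hq : q = 0 ∨ q = 1 ∨ q = 2 ∨ q = 3 ∨ q = 4 ∨ q = 5 ∨ q = 6 ∨ q = 7 ∨ q = 8 ∨ q = 9 ∨
    q = 10 ∨ 11 ≤ q := by omega
  rcases hq with h | h | h | h | h | h | h | h | h | h | h | h
  · subst h
    exact ⟨0, 1, 3, 4, rfl, by decide, -1, fun x ⟨h3, h4, h5⟩ => by linarith⟩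
  · subst h
    exact ⟨0, 1, 2, 5, rfl, by decide, -1 / 2, fun x ⟨h3, h4, h5⟩ => by linarith⟩
  · subst h
    exact ⟨3, 4, 2, 5, rfl, by decide, 1 / 2, fun x ⟨h3, h4, h5⟩ => by linarith⟩
  · subst h
    exact ⟨1, 2, 4, 5, rfl, by decide, -1, fun x ⟨h3, h4, h5⟩ => by linarith⟩
  · subst h
    exact ⟨1, 2, 0, 3, rfl, by decide, 1 / 2, fun x ⟨h3, h4, h5⟩ => by linarith⟩
  · subst h
    exact ⟨4, 5, 0, 3, rfl, by decide, -1 / 2, fun x ⟨h3, h4, h5⟩ => by linarith⟩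
  · subst h
    exact ⟨2, 3, 5, 0, rfl, by decide, -1, fun x ⟨h3, h4, h5⟩ => by linarith⟩
  · subst h
    exact ⟨2, 3, 1, 4, rfl, by decide, 1 / 2, fun x ⟨h3, h4, h5⟩ => by linarith⟩
  · subst h
    exact ⟨5, 0, 1, 4, rfl, by decide, -1 / 2, fun x ⟨h3, h4, h5⟩ => by linarith⟩
  · subst h
    exact ⟨0, 2, 3, 5, rfl, by decide, -1, fun x ⟨h3, h4, h5⟩ => by linarith⟩
  · subst h
    exact ⟨1, 3, 4, 0, rfl, by decide, -1, fun x ⟨h3, h4, h5⟩ => by linarith⟩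
  · refine ⟨2, 4, 5, 1, ?_, by decide, -1, fun x ⟨h3, h4, h5⟩ => by linarith⟩
    obtain ⟨r, rfl⟩ := Nat.exists_eq_add_of_le h
    rw [Nat.add_comm]
    rfl

theorem isZ_false (z : Int) (h : (!(isZ z)) = true) : z ≠ 0 := by
  rintro rfl
  simp [isZ] at h

theorem deg2_sound (s : St) (q : ℕ) (hc : deg2 s q = true)
    (x y : Fin 6 → ℝ) (hx : Rel x) (hy : Rel y) (hnd : ND x y) (e : Fin 6 → ℕ) (hb : Box s e)
    (ho : ∀ k, OnE (x k) (y k) (e k)) : False := by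
  obtain ⟨i, j, k, l, ht, hij, m, hm⟩ := tab_par q
  unfold deg2 at hc
  rw [ht] at hc
  unfold deg2' at hc
  simp only [Bool.and_eq_true, Nat.beq_eq] at hc
  obtain ⟨⟨⟨⟨⟨⟨h1, h2⟩, h3⟩, h4⟩, h5⟩, h6⟩, h7⟩ := hc
  have hne := isZ_false _ h7
  have ei := St.lo_le hb i
  have ej := St.lo_le hb j
  have ek := St.lo_le hb k
  have el := St.lo_le hb l
  have hi' : e i = s.lo i := by omega
  have hj' : e j = s.lo i := by omega
  have hk' : e k = s.lo k := by omega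
  have hl' : e l = s.lo k := by omega
  have li := (ho i).line
  have lj := (ho j).line
  have lk := (ho k).line
  have ll := (ho l).line
  rw [hi'] at li
  rw [hj'] at lj
  rw [hk'] at lk
  rw [hl'] at ll
  have mx := hm x hx
  have my := hm y hy
  set A : ℤ := VX (s.lo i + 1) - VX (s.lo i) with hA
  set B : ℤ := VY (s.lo i + 1) - VY (s.lo i) with hB
  set C : ℤ := VX (s.lo k + 1) - VX (s.lo k) with hC
  set D : ℤ := VY (s.lo k + 1) - VY (s.lo k) with hD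
  have hne' : (A : ℝ) * D - B * C ≠ 0 := by
    have : crossE (s.lo i) (s.lo k) = A * D - B * C := by
      unfold crossE
      rw [hA, hB, hC, hD]
    rw [this] at hne
    exact_mod_cast hne
  have e1 : (B : ℝ) * (x i - x j) - A * (y i - y j) = 0 := by linarith
  have e2 : (D : ℝ) * (x i - x j) - C * (y i - y j) = 0 := by
    rw [mx, my]
    linear_combination m * lk - m * ll
  have dx : x i - x j = 0 := by
    apply (mul_eq_zero.mp (?_ : ((A : ℝ) * D - B * C) * _ = 0)).resolve_left hne'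
    linear_combination A * e2 - C * e1
  have dy : y i - y j = 0 := by
    apply (mul_eq_zero.mp (?_ : ((A : ℝ) * D - B * C) * _ = 0)).resolve_left hne'
    linear_combination B * e2 - D * e1
  exact two_eq hx hy hnd i j hij (by linarith) (by linarith)

theorem deg3_sound (s : St) (hc : deg3 s = true)
    (x y : Fin 6 → ℝ) (hx : Rel x) (hy : Rel y) (hnd : ND x y) (e : Fin 6 → ℕ) (hb : Box s e)
    (ho : ∀ k, OnE (x k) (y k) (e k)) : False := by
  unfold deg3 at hc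
  simp only [Bool.and_eq_true, Nat.beq_eq, Nat.ble_eq] at hc
  obtain ⟨⟨a0, b0⟩, ⟨a1, b1⟩, ⟨a2, b2⟩, ⟨a3, b3⟩, ⟨a4, b4⟩, ⟨a5, b5⟩⟩ := hb
  have h0 : e 0 = 0 ∨ e 0 = 1 := by omega
  have h1 : e 1 = 2 ∨ e 1 = 3 := by omega
  have h2 : e 2 = 4 := by omega
  have h3 : e 3 = 5 ∨ e 3 = 6 := by omega
  have h4 : e 4 = 7 ∨ e 4 = 8 := by omega
  have h5 : e 5 = 9 := by omega
  have l0 := (ho 0).line
  have l1 := (ho 1).line
  have l2 := (ho 2).line
  have l3 := (ho 3).line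
  have l4 := (ho 4).line
  have l5 := (ho 5).line
  obtain ⟨hx3, hx4, hx5⟩ := hx
  obtain ⟨hy3, hy4, hy5⟩ := hy
  refine nd_contra hnd 0 1 (Or.inr one_ne_zero) ?_ ?_
  all_goals
    rcases h0 with h0 | h0 <;> rcases h1 with h1 | h1 <;> rcases h3 with h3 | h3 <;>
      rcases h4 with h4 | h4 <;>
    · rw [h0] at l0
      rw [h1] at l1
      rw [h2] at l2
      rw [h3] at l3
      rw [h4] at l4
      rw [h5] at l5
      norm_num [VX, VY] at l0 l1 l2 l3 l4 l5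
      linarith

theorem leaf_sound (c : ℕ) (s : St) (hc : leaf c s = true)
    (x y : Fin 6 → ℝ) (hx : Rel x) (hy : Rel y) (hnd : ND x y) (e : Fin 6 → ℕ) (hb : Box s e)
    (hs : e 1 ≤ e 5) (ho : ∀ k, OnE (x k) (y k) (e k)) : False := by
  unfold leaf at hc
  split at hc
  · exact cert_sound s _ _ _ _ _ _ hc x y hx hy e hb ho
  · split at hc
    · have := Nat.blt_eq.mp hc
      obtain ⟨⟨a0, b0⟩, ⟨a1, b1⟩, ⟨a2, b2⟩, ⟨a3, b3⟩, ⟨a4, b4⟩, ⟨a5, b5⟩⟩ := hb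
      omega
    · split at hc
      · exact deg3_sound s hc x y hx hy hnd e hb ho
      · split at hc
        · exact deg2_sound s _ hc x y hx hy hnd e hb ho
        · exact deg1_sound s _ _ _ hc x y hx hy hnd e hb ho

theorem run_sound (x y : Fin 6 → ℝ) (hx : Rel x) (hy : Rel y) (hnd : ND x y) (e : Fin 6 → ℕ)
    (hs : e 1 ≤ e 5) (ho : ∀ k, OnE (x k) (y k) (e k)) :
    ∀ (n : ℕ) (cs : List ℕ) (s : St) (r : List ℕ), run n cs s = some r → ¬ Box s e := by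
  intro n
  induction n with
  | zero =>
    intro cs s r h
    simp [run] at h
  | succ n ih =>
    intro cs s r h hb
    cases cs with
    | nil => simp [run] at h
    | cons c cs =>
      have hb' := hb
      obtain ⟨b0, b1, b2, b3, b4, b5⟩ := hb'
      unfold run at h
      split at h
      · split at h
        · cases h
        · rename_i r' hr'
          rcases Nat.lt_or_ge ((s.l1 + s.h1) / 2) (e 1) with hlt | hge
          · exact ih _ _ _ h ⟨b0, ⟨hlt, b1.2⟩, b2, b3, b4, b5⟩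
          · exact ih _ _ _ hr' ⟨b0, ⟨b1.1, hge⟩, b2, b3, b4, b5⟩
      · split at h
        · cases h
        · rename_i r' hr'
          rcases Nat.lt_or_ge ((s.l2 + s.h2) / 2) (e 2) with hlt | hge
          · exact ih _ _ _ h ⟨b0, b1, ⟨hlt, b2.2⟩, b3, b4, b5⟩
          · exact ih _ _ _ hr' ⟨b0, b1, ⟨b2.1, hge⟩, b3, b4, b5⟩
      · split at h
        · cases h
        · rename_i r' hr'
          rcases Nat.lt_or_ge ((s.l3 + s.h3) / 2) (e 3) with hlt | hge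
          · exact ih _ _ _ h ⟨b0, b1, b2, ⟨hlt, b3.2⟩, b4, b5⟩
          · exact ih _ _ _ hr' ⟨b0, b1, b2, ⟨b3.1, hge⟩, b4, b5⟩
      · split at h
        · cases h
        · rename_i r' hr'
          rcases Nat.lt_or_ge ((s.l4 + s.h4) / 2) (e 4) with hlt | hge
          · exact ih _ _ _ h ⟨b0, b1, b2, b3, ⟨hlt, b4.2⟩, b5⟩
          · exact ih _ _ _ hr' ⟨b0, b1, b2, b3, ⟨b4.1, hge⟩, b5⟩
      · split at h
        · cases h
        · rename_i r' hr'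
          rcases Nat.lt_or_ge ((s.l5 + s.h5) / 2) (e 5) with hlt | hge
          · exact ih _ _ _ h ⟨b0, b1, b2, b3, b4, ⟨hlt, b5.2⟩⟩
          · exact ih _ _ _ hr' ⟨b0, b1, b2, b3, b4, ⟨b5.1, hge⟩⟩
      · split at h
        · rename_i hl
          exact leaf_sound _ s hl x y hx hy hnd e hb hs ho
        · cases h

theorem chk_sound (i : ℕ) (cs : List ℕ) (h : chk i cs = true)
    (x y : Fin 6 → ℝ) (hx : Rel x) (hy : Rel y) (hnd : ND x y) (e : Fin 6 → ℕ)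
    (hs : e 1 ≤ e 5) (ho : ∀ k, OnE (x k) (y k) (e k)) (h0 : e 0 = i)
    (hmin : ∀ k, i ≤ e k) (hmax : ∀ k, e k ≤ 9) : False := by
  unfold chk at h
  split at h
  · rename_i r hr
    exact run_sound x y hx hy hnd e hs ho _ _ _ _ hr
      ⟨⟨h0.ge, h0.le⟩, ⟨hmin 1, hmax 1⟩, ⟨hmin 2, hmax 2⟩, ⟨hmin 3, hmax 3⟩,
        ⟨hmin 4, hmax 4⟩, ⟨hmin 5, hmax 5⟩⟩
  · cases h

end Pool.Agent.H558R3.Hex
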