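import Pool.Agent.H310R3.Inh.Stmts
import Pool.Agent.H310R3.NA2

/-! Task Seq of project H310INH. -/

set_option maxHeartbeats 1000000
set_option linter.all false

namespace Pool.Agent.H558R3.InhSeq

open FirstOrder FirstOrder.Language
open Pool.Agent.Helper672.ZFA
open Pool.Agent.H310 (FinP)
open Pool.Agent.H310R3.Inh

universe u

/-! ### Germs -/

section Germs
variable {Q : Type u}

def Gl (lt : Q → Q → Prop) (s : Q) (T : Q → Prop) : Prop :=
  ∃ r, lt r s ∧ ∀ q, lt r q → lt q s → T q
def Gr (lt : Q → Q → Prop) (s : Q) (T : Q → Prop) : Prop :=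
  ∃ r, lt s r ∧ ∀ q, lt s q → lt q r → T q
def Gm (lt : Q → Q → Prop) (T : Q → Prop) : Prop := ∃ r, ∀ q, lt q r → T q
def Gp (lt : Q → Q → Prop) (T : Q → Prop) : Prop := ∃ r, ∀ q, lt r q → T q

/-- filters are proper -/
def Nd (G : (Q → Prop) → Prop) : Prop := ∀ T T', G T → G T' → ∃ q, T q ∧ T' q

end Germs

section
variable {M : Type 1} [L.Structure M] [hM : IsModel M] {Q Y : Type 1} [ITy M Q] [ITy M Y]
  {lt : Q → Q → Prop}

theorem nd_l (hQ : DLO M Q lt) (s : Q) : Nd (Gl lt s) := by
  rintro T T' ⟨r, h1, h2⟩ ⟨r', h1', h2'⟩
  rcases hQ.total r r' with h | h | h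
  · obtain ⟨q, h3, h4⟩ := hQ.dense r' s h1'
    exact ⟨q, h2 q (hQ.trans _ _ _ h h3) h4, h2' q h3 h4⟩
  · subst h
    obtain ⟨q, h3, h4⟩ := hQ.dense r s h1
    exact ⟨q, h2 q h3 h4, h2' q h3 h4⟩
  · obtain ⟨q, h3, h4⟩ := hQ.dense r s h1
    exact ⟨q, h2 q h3 h4, h2' q (hQ.trans _ _ _ h h3) h4⟩

theorem nd_r (hQ : DLO M Q lt) (s : Q) : Nd (Gr lt s) := by
  rintro T T' ⟨r, h1, h2⟩ ⟨r', h1', h2'⟩
  rcases hQ.total r r' with h | h | h
  · obtain ⟨q, h3, h4⟩ := hQ.dense s r h1
    exact ⟨q, h2 q h3 h4, h2' q h3 (hQ.trans _ _ _ h4 h)⟩
  · subst h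
    obtain ⟨q, h3, h4⟩ := hQ.dense s r h1
    exact ⟨q, h2 q h3 h4, h2' q h3 h4⟩
  · obtain ⟨q, h3, h4⟩ := hQ.dense s r' h1'
    exact ⟨q, h2 q h3 (hQ.trans _ _ _ h4 h), h2' q h3 h4⟩

theorem nd_m (hQ : DLO M Q lt) : Nd (Gm lt) := by
  rintro T T' ⟨r, h1⟩ ⟨r', h1'⟩
  rcases hQ.total r r' with h | h | h
  · obtain ⟨q, h3⟩ := hQ.noMin r
    exact ⟨q, h1 q h3, h1' q (hQ.trans _ _ _ h3 h)⟩
  · subst h
    obtain ⟨q, h3⟩ := hQ.noMin r
    exact ⟨q, h1 q h3, h1' q h3⟩
  · obtain ⟨q, h3⟩ := hQ.noMin r'
    exact ⟨q, h1 q (hQ.trans _ _ _ h3 h), h1' q h3⟩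

theorem nd_p (hQ : DLO M Q lt) : Nd (Gp lt) := by
  rintro T T' ⟨r, h1⟩ ⟨r', h1'⟩
  rcases hQ.total r r' with h | h | h
  · obtain ⟨q, h3⟩ := hQ.noMax r'
    exact ⟨q, h1 q (hQ.trans _ _ _ h h3), h1' q h3⟩
  · subst h
    obtain ⟨q, h3⟩ := hQ.noMax r
    exact ⟨q, h1 q h3, h1' q h3⟩
  · obtain ⟨q, h3⟩ := hQ.noMax r
    exact ⟨q, h1 q h3, h1' q (hQ.trans _ _ _ h h3)⟩

/-- `T` is constant on the cuts over `c` -/
def Cst (lt : Q → Q → Prop) (c : IPow M Q) (T : Q → Prop) : Prop :=
  ∀ p q, ¬ p ∈ c → ¬ q ∈ c → (∀ r, r ∈ c → (lt r p ↔ lt r q)) → (T p ↔ T q)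

theorem exists_cst (hQ : QS M Q lt) {T : Q → Prop} (hT : Int M T) :
    ∃ c : IPow M Q, IFin c ∧ Cst lt c T := by
  obtain ⟨c, hc, h⟩ := hQ.sup (fun x : Q × INat M => T x.1) (Int.comp hT IntF.fst')
  exact ⟨c, hc, fun p q h1 h2 h3 => h 0 p q h1 h2 h3⟩

/-- greatest element of a finite set with an internal property -/
theorem max_of (hQ : DLO M Q lt) {c : IPow M Q} (hc : IFin c) {p : Q → Prop} (hp : Int M p)
    (hne : ∃ t, t ∈ c ∧ p t) : ∃ a, a ∈ c ∧ p a ∧ ∀ t, t ∈ c → p t → ¬ lt a t := by
  have hlt := hQ.int
  have hs : Int M (fun t : Q => t ∈ c ∧ p t) := by (repeat' (first | with_reducible exact IntF.id | with_reducible exact IntF.fst' | with_reducible exact IntF.snd' | with_reducible exact IntF.const _ | with_reducible exact Int.const _ | assumption | with_reducible apply Int.and | with_reducible apply Int.or | with_reducible apply Int.not | with_reducible apply Int.imp | with_reducible apply Int.iff | with_reducible apply Int.ne | with_reducible apply Int.eq | with_reducible apply Int.mem | with_reducible apply Int.subset | with_reducible apply Int.ltN | with_reducible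 apply Int.leN | with_reducible apply Int.fin | with_reducible apply Int.unique | with_reducible apply Int.all | with_reducible apply Int.ex | with_reducible apply IntF.fst | with_reducible apply IntF.snd | with_reducible apply IntF.app | with_reducible apply IntF.ite | with_reducible apply IntF.sep | with_reducible apply IntF.lam | with_reducible apply IntF.insert | with_reducible apply IntF.singleton | with_reducible apply IntF.union | with_reducible apply IntF.inter | with_reducible apply IntF.sdiff | with_reducible apply IntF.isUnion | with_reducible apply IntF.iimage | with_reducible apply IntF.the | with_reducible apply IntF.irec | with_reducible_and_instances apply IntF.add | with_reducible_and_instances apply IntF.mul | with_reducible apply IntF.succ | with_reducible apply IntF.val | with_reducible apply IntF.mk | (with_reducible refine Int.comp ?_ ?_; assumption) | (with_reducible refine Int.comp₂ ?_ ?_ ?_; assumption) | (with_reducible refine Int.comp₃ ?_ ?_ ?_ ?_; assumption) | (with_reducible refine IntF.comp ?_ ?_; assumption) | (with_reducible refine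 IntF.comp₂ ?_ ?_ ?_; assumption) | (with_reducible refine IntF.comp₃ ?_ ?_ ?_ ?_; assumption) | with_reducible apply IntF.pair))
  have hgt : Int M (fun q : Q × Q => (fun a b => lt b a) q.1 q.2) := by
    show Int M (fun q : Q × Q => lt q.2 q.1)
    (repeat' (first | with_reducible exact IntF.id | with_reducible exact IntF.fst' | with_reducible exact IntF.snd' | with_reducible exact IntF.const _ | with_reducible exact Int.const _ | assumption | with_reducible apply Int.and | with_reducible apply Int.or | with_reducible apply Int.not | with_reducible apply Int.imp | with_reducible apply Int.iff | with_reducible apply Int.ne | with_reducible apply Int.eq | with_reducible apply Int.mem | with_reducible apply Int.subset | with_reducible apply Int.ltN | with_reducible apply Int.leN | with_reducible apply Int.fin | with_reducible apply Int.unique | with_reducible apply Int.all | with_reducible apply Int.ex | with_reducible apply IntF.fst | with_reducible apply IntF.snd | with_reducible apply IntF.app | with_reducible apply IntF.ite | with_reducible apply IntF.sep | with_reducible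 apply IntF.lam | with_reducible apply IntF.insert | with_reducible apply IntF.singleton | with_reducible apply IntF.union | with_reducible apply IntF.inter | with_reducible apply IntF.sdiff | with_reducible apply IntF.isUnion | with_reducible apply IntF.iimage | with_reducible apply IntF.the | with_reducible apply IntF.irec | with_reducible_and_instances apply IntF.add | with_reducible_and_instances apply IntF.mul | with_reducible apply IntF.succ | with_reducible apply IntF.val | with_reducible apply IntF.mk | (with_reducible refine Int.comp ?_ ?_; assumption) | (with_reducible refine Int.comp₂ ?_ ?_ ?_; assumption) | (with_reducible refine Int.comp₃ ?_ ?_ ?_ ?_; assumption) | (with_reducible refine IntF.comp ?_ ?_; assumption) | (with_reducible refine IntF.comp₂ ?_ ?_ ?_; assumption) | (with_reducible refine IntF.comp₃ ?_ ?_ ?_ ?_; assumption) | with_reducible apply IntF.pair))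
  have hfin : IFin (sep M (fun t : Q => t ∈ c ∧ p t)) :=
    hc.subset (fun x hx => ((mem_sep hs).1 hx).1)
  obtain ⟨t0, ht0⟩ := hne
  obtain ⟨a, h1, h2⟩ := IFin.exists_min (lt := fun a b => lt b a) hgt
    (fun a h => hQ.irrefl a h) (fun a b c h h' => hQ.trans _ _ _ h' h) hfin
    ⟨t0, (mem_sep hs).2 ht0⟩
  exact ⟨a, ((mem_sep hs).1 h1).1, ((mem_sep hs).1 h1).2,
    fun t ht hpt => h2 t ((mem_sep hs).2 ⟨ht, hpt⟩)⟩

/-- least element of a finite set with an internal property -/
theorem min_of (hQ : DLO M Q lt) {c : IPow M Q} (hc : IFin c) {p : Q → Prop} (hp : Int M p)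
    (hne : ∃ t, t ∈ c ∧ p t) : ∃ a, a ∈ c ∧ p a ∧ ∀ t, t ∈ c → p t → ¬ lt t a := by
  have hlt := hQ.int
  have hs : Int M (fun t : Q => t ∈ c ∧ p t) := by (repeat' (first | with_reducible exact IntF.id | with_reducible exact IntF.fst' | with_reducible exact IntF.snd' | with_reducible exact IntF.const _ | with_reducible exact Int.const _ | assumption | with_reducible apply Int.and | with_reducible apply Int.or | with_reducible apply Int.not | with_reducible apply Int.imp | with_reducible apply Int.iff | with_reducible apply Int.ne | with_reducible apply Int.eq | with_reducible apply Int.mem | with_reducible apply Int.subset | with_reducible apply Int.ltN | with_reducible apply Int.leN | with_reducible apply Int.fin | with_reducible apply Int.unique | with_reducible apply Int.all | with_reducible apply Int.ex | with_reducible apply IntF.fst | with_reducible apply IntF.snd | with_reducible apply IntF.app | with_reducible apply IntF.ite | with_reducible apply IntF.sep | with_reducible apply IntF.lam | with_reducible apply IntF.insert | with_reducible apply IntF.singleton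 | with_reducible apply IntF.union | with_reducible apply IntF.inter | with_reducible apply IntF.sdiff | with_reducible apply IntF.isUnion | with_reducible apply IntF.iimage | with_reducible apply IntF.the | with_reducible apply IntF.irec | with_reducible_and_instances apply IntF.add | with_reducible_and_instances apply IntF.mul | with_reducible apply IntF.succ | with_reducible apply IntF.val | with_reducible apply IntF.mk | (with_reducible refine Int.comp ?_ ?_; assumption) | (with_reducible refine Int.comp₂ ?_ ?_ ?_; assumption) | (with_reducible refine Int.comp₃ ?_ ?_ ?_ ?_; assumption) | (with_reducible refine IntF.comp ?_ ?_; assumption) | (with_reducible refine IntF.comp₂ ?_ ?_ ?_; assumption) | (with_reducible refine IntF.comp₃ ?_ ?_ ?_ ?_; assumption) | with_reducible apply IntF.pair))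
  have hfin : IFin (sep M (fun t : Q => t ∈ c ∧ p t)) :=
    hc.subset (fun x hx => ((mem_sep hs).1 hx).1)
  obtain ⟨t0, ht0⟩ := hne
  obtain ⟨a, h1, h2⟩ := IFin.exists_min (lt := lt) hlt hQ.irrefl hQ.trans hfin
    ⟨t0, (mem_sep hs).2 ht0⟩
  exact ⟨a, ((mem_sep hs).1 h1).1, ((mem_sep hs).1 h1).2,
    fun t ht hpt => h2 t ((mem_sep hs).2 ⟨ht, hpt⟩)⟩

theorem le_of (hQ : DLO M Q lt) {a t : Q} (h : ¬ lt a t) : t = a ∨ lt t a := by
  rcases hQ.total a t with h1 | h1 | h1
  · exact absurd h1 h
  · exact Or.inl h1.symm
  · exact Or.inr h1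

/-- a value that is constant is true or false throughout -/
theorem all_or {P T : Q → Prop} (h : ∀ p q, P p → P q → (T p ↔ T q)) :
    (∀ q, P q → T q) ∨ (∀ q, P q → ¬ T q) := by
  by_cases h1 : ∃ q, P q ∧ T q
  · obtain ⟨q, hq, hT⟩ := h1
    exact Or.inl (fun p hp => (h p q hp hq).2 hT)
  · exact Or.inr (fun q hq hT => h1 ⟨q, hq, hT⟩)

theorem dich_l (hQ : QS M Q lt) {T : Q → Prop} (hT : Int M T) (s : Q) :
    Gl lt s T ∨ Gl lt s (fun q => ¬ T q) := by
  have hD := hQ.toDLO
  have hlt := hD.int
  obtain ⟨c, hc, h⟩ := exists_cst hQ hT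
  obtain ⟨r, hr, hr'⟩ : ∃ r, lt r s ∧ ∀ t, t ∈ c → lt t s → ¬ lt r t := by
    by_cases hne : ∃ t, t ∈ c ∧ lt t s
    · have hp : Int M (fun t : Q => lt t s) := by (repeat' (first | with_reducible exact IntF.id | with_reducible exact IntF.fst' | with_reducible exact IntF.snd' | with_reducible exact IntF.const _ | with_reducible exact Int.const _ | assumption | with_reducible apply Int.and | with_reducible apply Int.or | with_reducible apply Int.not | with_reducible apply Int.imp | with_reducible apply Int.iff | with_reducible apply Int.ne | with_reducible apply Int.eq | with_reducible apply Int.mem | with_reducible apply Int.subset | with_reducible apply Int.ltN | with_reducible apply Int.leN | with_reducible apply Int.fin | with_reducible apply Int.unique | with_reducible apply Int.all | with_reducible apply Int.ex | with_reducible apply IntF.fst | with_reducible apply IntF.snd | with_reducible apply IntF.app | with_reducible apply IntF.ite | with_reducible apply IntF.sep | with_reducible apply IntF.lam | with_reducible apply IntF.insert | with_reducible apply IntF.singleton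 | with_reducible apply IntF.union | with_reducible apply IntF.inter | with_reducible apply IntF.sdiff | with_reducible apply IntF.isUnion | with_reducible apply IntF.iimage | with_reducible apply IntF.the | with_reducible apply IntF.irec | with_reducible_and_instances apply IntF.add | with_reducible_and_instances apply IntF.mul | with_reducible apply IntF.succ | with_reducible apply IntF.val | with_reducible apply IntF.mk | (with_reducible refine Int.comp ?_ ?_; assumption) | (with_reducible refine Int.comp₂ ?_ ?_ ?_; assumption) | (with_reducible refine Int.comp₃ ?_ ?_ ?_ ?_; assumption) | (with_reducible refine IntF.comp ?_ ?_; assumption) | (with_reducible refine IntF.comp₂ ?_ ?_ ?_; assumption) | (with_reducible refine IntF.comp₃ ?_ ?_ ?_ ?_; assumption) | with_reducible apply IntF.pair))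
      obtain ⟨a, h1, h2, h3⟩ := max_of hD hc hp hne
      exact ⟨a, h2, h3⟩
    · obtain ⟨r, hr⟩ := hD.noMin s
      exact ⟨r, hr, fun t h1 h2 => absurd ⟨t, h1, h2⟩ hne⟩
  have hcut : ∀ p, lt r p ∧ lt p s → ¬ p ∈ c := fun p hp hpc => hr' p hpc hp.2 hp.1
  have hbel : ∀ p q, lt r p ∧ lt p s → lt r q ∧ lt q s → ∀ t, t ∈ c → lt t p → lt t q := by
    intro p q hp hq t ht htp
    rcases le_of hD (hr' t ht (hD.trans _ _ _ htp hp.2)) with h1 | h1
    · rw [h1]; exact hq.1
    · exact hD.trans _ _ _ h1 hq.1
  rcases all_or (P := fun q => lt r q ∧ lt q s) (T := T) (fun p q hp hq =>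
    h p q (hcut p hp) (hcut q hq) (fun t ht => ⟨hbel p q hp hq t ht, hbel q p hq hp t ht⟩))
    with h1 | h1
  · exact Or.inl ⟨r, hr, fun q h2 h3 => h1 q ⟨h2, h3⟩⟩
  · exact Or.inr ⟨r, hr, fun q h2 h3 => h1 q ⟨h2, h3⟩⟩

theorem dich_r (hQ : QS M Q lt) {T : Q → Prop} (hT : Int M T) (s : Q) :
    Gr lt s T ∨ Gr lt s (fun q => ¬ T q) := by
  have hD := hQ.toDLO
  have hlt := hD.int
  obtain ⟨c, hc, h⟩ := exists_cst hQ hT
  obtain ⟨r, hr, hr'⟩ : ∃ r, lt s r ∧ ∀ t, t ∈ c → lt s t → ¬ lt t r := by
    by_cases hne : ∃ t, t ∈ c ∧ lt s t
    · have hp : Int M (fun t : Q => lt s t) := by (repeat' (first | with_reducible exact IntF.id | with_reducible exact IntF.fst' | with_reducible exact IntF.snd' | with_reducible exact IntF.const _ | with_reducible exact Int.const _ | assumption | with_reducible apply Int.and | with_reducible apply Int.or | with_reducible apply Int.not | with_reducible apply Int.imp | with_reducible apply Int.iff | with_reducible apply Int.ne | with_reducible apply Int.eq | with_reducible apply Int.mem | with_reducible apply Int.subset | with_reducible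 apply Int.ltN | with_reducible apply Int.leN | with_reducible apply Int.fin | with_reducible apply Int.unique | with_reducible apply Int.all | with_reducible apply Int.ex | with_reducible apply IntF.fst | with_reducible apply IntF.snd | with_reducible apply IntF.app | with_reducible apply IntF.ite | with_reducible apply IntF.sep | with_reducible apply IntF.lam | with_reducible apply IntF.insert | with_reducible apply IntF.singleton | with_reducible apply IntF.union | with_reducible apply IntF.inter | with_reducible apply IntF.sdiff | with_reducible apply IntF.isUnion | with_reducible apply IntF.iimage | with_reducible apply IntF.the | with_reducible apply IntF.irec | with_reducible_and_instances apply IntF.add | with_reducible_and_instances apply IntF.mul | with_reducible apply IntF.succ | with_reducible apply IntF.val | with_reducible apply IntF.mk | (with_reducible refine Int.comp ?_ ?_; assumption) | (with_reducible refine Int.comp₂ ?_ ?_ ?_; assumption) | (with_reducible refine Int.comp₃ ?_ ?_ ?_ ?_; assumption) | (with_reducible refine IntF.comp ?_ ?_; assumption)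 | (with_reducible refine IntF.comp₂ ?_ ?_ ?_; assumption) | (with_reducible refine IntF.comp₃ ?_ ?_ ?_ ?_; assumption) | with_reducible apply IntF.pair))
      obtain ⟨a, h1, h2, h3⟩ := min_of hD hc hp hne
      exact ⟨a, h2, h3⟩
    · obtain ⟨r, hr⟩ := hD.noMax s
      exact ⟨r, hr, fun t h1 h2 => absurd ⟨t, h1, h2⟩ hne⟩
  have hcut : ∀ p, lt s p ∧ lt p r → ¬ p ∈ c := fun p hp hpc => hr' p hpc hp.1 hp.2
  have hbel : ∀ p q, lt s p ∧ lt p r → lt s q ∧ lt q r → ∀ t, t ∈ c → lt t p → lt t q := by
    intro p q hp hq t ht htp
    rcases hD.total t s with h1 | h1 | h1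
    · exact hD.trans _ _ _ h1 hq.1
    · rw [h1]; exact hq.1
    · exact absurd (hD.trans _ _ _ htp hp.2) (hr' t ht h1)
  rcases all_or (P := fun q => lt s q ∧ lt q r) (T := T) (fun p q hp hq =>
    h p q (hcut p hp) (hcut q hq) (fun t ht => ⟨hbel p q hp hq t ht, hbel q p hq hp t ht⟩))
    with h1 | h1
  · exact Or.inl ⟨r, hr, fun q h2 h3 => h1 q ⟨h2, h3⟩⟩
  · exact Or.inr ⟨r, hr, fun q h2 h3 => h1 q ⟨h2, h3⟩⟩

theorem dich_m (hQ : QS M Q lt) {T : Q → Prop} (hT : Int M T) :
    Gm lt T ∨ Gm lt (fun q => ¬ T q) := by
  have hD := hQ.toDLO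
  have hlt := hD.int
  obtain ⟨c, hc, h⟩ := exists_cst hQ hT
  obtain ⟨r, hr'⟩ : ∃ r, ∀ t, t ∈ c → ¬ lt t r := by
    by_cases hne : ∃ t, t ∈ c ∧ True
    · obtain ⟨a, h1, h2, h3⟩ := min_of hD hc (Int.const True) hne
      exact ⟨a, fun t ht => h3 t ht trivial⟩
    · obtain ⟨r⟩ := hD.ne
      exact ⟨r, fun t h1 => absurd ⟨t, h1, trivial⟩ hne⟩
  have hcut : ∀ p, lt p r → ¬ p ∈ c := fun p hp hpc => hr' p hpc hp
  have hbel : ∀ p q, lt p r → lt q r → ∀ t, t ∈ c → lt t p → lt t q := by
    intro p q hp hq t ht htp
    exact absurd (hD.trans _ _ _ htp hp) (hr' t ht)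
  exact (all_or (P := fun q => lt q r) (T := T) (fun p q hp hq =>
    h p q (hcut p hp) (hcut q hq) (fun t ht => ⟨hbel p q hp hq t ht, hbel q p hq hp t ht⟩))).imp
    (fun h1 => ⟨r, h1⟩) (fun h1 => ⟨r, h1⟩)

theorem dich_p (hQ : QS M Q lt) {T : Q → Prop} (hT : Int M T) :
    Gp lt T ∨ Gp lt (fun q => ¬ T q) := by
  have hD := hQ.toDLO
  have hlt := hD.int
  obtain ⟨c, hc, h⟩ := exists_cst hQ hT
  obtain ⟨r, hr'⟩ : ∃ r, ∀ t, t ∈ c → ¬ lt r t := by
    by_cases hne : ∃ t, t ∈ c ∧ True
    · obtain ⟨a, h1, h2, h3⟩ := max_of hD hc (Int.const True) hne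
      exact ⟨a, fun t ht => h3 t ht trivial⟩
    · obtain ⟨r⟩ := hD.ne
      exact ⟨r, fun t h1 => absurd ⟨t, h1, trivial⟩ hne⟩
  have hcut : ∀ p, lt r p → ¬ p ∈ c := fun p hp hpc => hr' p hpc hp
  have hbel : ∀ p q, lt r p → lt r q → ∀ t, t ∈ c → lt t p → lt t q := by
    intro p q hp hq t ht htp
    rcases le_of hD (hr' t ht) with h1 | h1
    · rw [h1]; exact hq
    · exact hD.trans _ _ _ h1 hq
  exact (all_or (P := fun q => lt r q) (T := T) (fun p q hp hq =>
    h p q (hcut p hp) (hcut q hq) (fun t ht => ⟨hbel p q hp hq t ht, hbel q p hq hp t ht⟩))).imp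
    (fun h1 => ⟨r, h1⟩) (fun h1 => ⟨r, h1⟩)

/-! ### Types of points -/

/-- `z` is a limit along the germ `G` -/
def Lim (Op : IPow M (IPow M Y)) (f : Q → Y) (G : (Q → Prop) → Prop) (z : Y) : Prop :=
  ∀ U, U ∈ Op → z ∈ U → G (fun q => f q ∈ U)

theorem lim_uniq {Op : IPow M (IPow M Y)} {f : Q → Y} (hI : ICH M Y Op) {G : (Q → Prop) → Prop}
    (hG : Nd G) {z z' : Y} (h : Lim Op f G z) (h' : Lim Op f G z') : z = z' := by
  by_contra hne
  obtain ⟨U, V, hU, hV, hzU, hzV, hd⟩ := hI.haus z z' hne
  obtain ⟨q, h1, h2⟩ := hG _ _ (h U hU hzU) (h' V hV hzV)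
  exact hd _ h1 h2

/-- the initial segment of a point -/
def II (lt : Q → Q → Prop) (Op : IPow M (IPow M Y)) (f : Q → Y) (z : Y) (p : Q) : Prop :=
  ∃ U, U ∈ Op ∧ z ∈ U ∧ ∀ q, lt q p → ¬ f q ∈ U

theorem main {Op : IPow M (IPow M Y)} {f : Q → Y} (hQ : QS M Q lt) (hI : ICH M Y Op)
    (hf : IntF M f) (hd : ∀ U, U ∈ Op → (∃ z, z ∈ U) → ∃ a, f a ∈ U) (z : Y)
    (hz : ∀ a, z ≠ f a) (c : IPow M Q) (hc : IFin c) (hcst : Cst lt c (II lt Op f z)) :
    Lim Op f (Gm lt) z ∨ Lim Op f (Gp lt) z ∨
      ∃ s, s ∈ c ∧ (Lim Op f (Gl lt s) z ∨ Lim Op f (Gr lt s) z) := by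
  have hD := hQ.toDLO
  have hlt := hD.int
  have hTi : ∀ U : IPow M Y, Int M (fun q => f q ∈ U) := fun U => by (repeat' (first | with_reducible exact IntF.id | with_reducible exact IntF.fst' | with_reducible exact IntF.snd' | with_reducible exact IntF.const _ | with_reducible exact Int.const _ | assumption | with_reducible apply Int.and | with_reducible apply Int.or | with_reducible apply Int.not | with_reducible apply Int.imp | with_reducible apply Int.iff | with_reducible apply Int.ne | with_reducible apply Int.eq | with_reducible apply Int.mem | with_reducible apply Int.subset | with_reducible apply Int.ltN | with_reducible apply Int.leN | with_reducible apply Int.fin | with_reducible apply Int.unique | with_reducible apply Int.all | with_reducible apply Int.ex | with_reducible apply IntF.fst | with_reducible apply IntF.snd | with_reducible apply IntF.app | with_reducible apply IntF.ite | with_reducible apply IntF.sep | with_reducible apply IntF.lam | with_reducible apply IntF.insert | with_reducible apply IntF.singleton | with_reducible apply IntF.union | with_reducible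 apply IntF.inter | with_reducible apply IntF.sdiff | with_reducible apply IntF.isUnion | with_reducible apply IntF.iimage | with_reducible apply IntF.the | with_reducible apply IntF.irec | with_reducible_and_instances apply IntF.add | with_reducible_and_instances apply IntF.mul | with_reducible apply IntF.succ | with_reducible apply IntF.val | with_reducible apply IntF.mk | (with_reducible refine Int.comp ?_ ?_; assumption) | (with_reducible refine Int.comp₂ ?_ ?_ ?_; assumption) | (with_reducible refine Int.comp₃ ?_ ?_ ?_ ?_; assumption) | (with_reducible refine IntF.comp ?_ ?_; assumption) | (with_reducible refine IntF.comp₂ ?_ ?_ ?_; assumption) | (with_reducible refine IntF.comp₃ ?_ ?_ ?_ ?_; assumption) | with_reducible apply IntF.pair))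
  have hIi : Int M (II lt Op f z) := by
    show Int M (fun p => ∃ U, U ∈ Op ∧ z ∈ U ∧ ∀ q, lt q p → ¬ f q ∈ U)
    (repeat' (first | with_reducible exact IntF.id | with_reducible exact IntF.fst' | with_reducible exact IntF.snd' | with_reducible exact IntF.const _ | with_reducible exact Int.const _ | assumption | with_reducible apply Int.and | with_reducible apply Int.or | with_reducible apply Int.not | with_reducible apply Int.imp | with_reducible apply Int.iff | with_reducible apply Int.ne | with_reducible apply Int.eq | with_reducible apply Int.mem | with_reducible apply Int.subset | with_reducible apply Int.ltN | with_reducible apply Int.leN | with_reducible apply Int.fin | with_reducible apply Int.unique | with_reducible apply Int.all | with_reducible apply Int.ex | with_reducible apply IntF.fst | with_reducible apply IntF.snd | with_reducible apply IntF.app | with_reducible apply IntF.ite | with_reducible apply IntF.sep | with_reducible apply IntF.lam | with_reducible apply IntF.insert | with_reducible apply IntF.singleton | with_reducible apply IntF.union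 | with_reducible apply IntF.inter | with_reducible apply IntF.sdiff | with_reducible apply IntF.isUnion | with_reducible apply IntF.iimage | with_reducible apply IntF.the | with_reducible apply IntF.irec | with_reducible_and_instances apply IntF.add | with_reducible_and_instances apply IntF.mul | with_reducible apply IntF.succ | with_reducible apply IntF.val | with_reducible apply IntF.mk | (with_reducible refine Int.comp ?_ ?_; assumption) | (with_reducible refine Int.comp₂ ?_ ?_ ?_; assumption) | (with_reducible refine Int.comp₃ ?_ ?_ ?_ ?_; assumption) | (with_reducible refine IntF.comp ?_ ?_; assumption) | (with_reducible refine IntF.comp₂ ?_ ?_ ?_; assumption) | (with_reducible refine IntF.comp₃ ?_ ?_ ?_ ?_; assumption) | with_reducible apply IntF.pair))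
  have down : ∀ p p', lt p' p → II lt Op f z p → II lt Op f z p' := by
    rintro p p' h ⟨U, h1, h2, h3⟩
    exact ⟨U, h1, h2, fun q hq => h3 q (hD.trans _ _ _ hq h)⟩
  by_cases h0 : ∀ p, ¬ II lt Op f z p
  · left
    intro U hU hzU
    rcases dich_m hQ (hTi U) with h | ⟨r, h⟩
    · exact h
    · exact absurd ⟨U, hU, hzU, h⟩ (h0 r)
  by_cases h1 : ∀ p, II lt Op f z p
  · right; left
    intro U hU hzU
    rcases dich_p hQ (hTi U) with h | ⟨r, h⟩
    · exact h
    · exfalso
      obtain ⟨p, hp⟩ := hD.noMax r
      obtain ⟨W, hW, hzW, hW'⟩ := h1 p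
      obtain ⟨a, ha⟩ := hd (U ∩ W) (hI.inter U W hU hW) ⟨z, mem_inter.2 ⟨hzU, hzW⟩⟩
      have ha' := mem_inter.1 ha
      rcases hD.total a p with h2 | h2 | h2
      · exact hW' a h2 ha'.2
      · rw [h2] at ha'
        exact h p hp ha'.1
      · exact h a (hD.trans _ _ _ hp h2) ha'.1
  right; right
  push Not at h0 h1
  obtain ⟨p0, hp0⟩ := h0
  obtain ⟨p1, hp1⟩ := h1
  obtain ⟨s, hs, hs1, hs2⟩ : ∃ s, s ∈ c ∧ (∀ p, lt p s → II lt Op f z p) ∧
      ∀ p, lt s p → ¬ II lt Op f z p := by
    by_contra hno
    obtain ⟨pa, hpa1, hpa2, hpa3⟩ : ∃ pa, II lt Op f z pa ∧ ¬ pa ∈ c ∧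
        ∀ t, t ∈ c → II lt Op f z t → lt t pa := by
      by_cases hne : ∃ t, t ∈ c ∧ II lt Op f z t
      · obtain ⟨a, ha1, ha2, ha3⟩ := max_of hD hc hIi hne
        have : ∃ p, lt a p ∧ II lt Op f z p := by
          by_contra hh
          exact hno ⟨a, ha1, fun p hp => down a p hp ha2, fun p hp hip => hh ⟨p, hp, hip⟩⟩
        obtain ⟨p, hp1, hp2⟩ := this
        refine ⟨p, hp2, fun hpc => ha3 p hpc hp2 hp1, fun t ht hit => ?_⟩
        rcases le_of hD (ha3 t ht hit) with h | h
        · rw [h]; exact hp1
        · exact hD.trans _ _ _ h hp1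
      · exact ⟨p0, hp0, fun hpc => hne ⟨p0, hpc, hp0⟩, fun t ht hit => absurd ⟨t, ht, hit⟩ hne⟩
    obtain ⟨qb, hqb1, hqb2, hqb3⟩ : ∃ qb, ¬ II lt Op f z qb ∧ ¬ qb ∈ c ∧
        ∀ t, t ∈ c → ¬ II lt Op f z t → ¬ lt t qb := by
      by_cases hne : ∃ t, t ∈ c ∧ ¬ II lt Op f z t
      · obtain ⟨b, hb1, hb2, hb3⟩ := min_of hD hc (Pool.Agent.Helper672.ZFA.Int.not hIi) hne
        have : ∃ p, lt p b ∧ ¬ II lt Op f z p := by
          by_contra hh
          refine hno ⟨b, hb1, fun p hp => ?_, fun p hp hip => hb2 (down p b hp hip)⟩
          by_contra hip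
          exact hh ⟨p, hp, hip⟩
        obtain ⟨p, hp1, hp2⟩ := this
        exact ⟨p, hp2, fun hpc => hb3 p hpc hp2 hp1,
          fun t ht hit htp => hb3 t ht hit (hD.trans _ _ _ htp hp1)⟩
      · exact ⟨p1, hp1, fun hpc => hne ⟨p1, hpc, hp1⟩, fun t ht hit => absurd ⟨t, ht, hit⟩ hne⟩
    have hiff := hcst pa qb hpa2 hqb2 (fun t ht => by
      by_cases hit : II lt Op f z t
      · refine ⟨fun _ => ?_, fun _ => hpa3 t ht hit⟩
        rcases hD.total t qb with h | h | h
        · exact h
        · rw [h] at hit; exact absurd hit hqb1
        · exact absurd (down t qb h hit) hqb1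
      · exact ⟨fun h => absurd (down pa t h hpa1) hit, fun h => absurd h (hqb3 t ht hit)⟩)
    exact hqb1 (hiff.1 hpa1)
  refine ⟨s, hs, ?_⟩
  by_contra hcon
  push Not at hcon
  obtain ⟨hc1, hc2⟩ := hcon
  unfold Lim at hc1 hc2
  push Not at hc1 hc2
  obtain ⟨U1, hU1, hzU1, hG1⟩ := hc1
  obtain ⟨U2, hU2, hzU2, hG2⟩ := hc2
  obtain ⟨r1, hr1, hr1'⟩ := (dich_l hQ (hTi U1) s).resolve_left hG1
  obtain ⟨r2, hr2, hr2'⟩ := (dich_r hQ (hTi U2) s).resolve_left hG2
  obtain ⟨U0, V, hU0, hV, hzU0, hsV, hdis⟩ := hI.haus z (f s) (hz s)
  obtain ⟨p, hp1, hp2⟩ := hD.dense r1 s hr1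
  obtain ⟨W, hW, hzW, hW'⟩ := hs1 p hp2
  apply hs2 r2 hr2
  refine ⟨((U1 ∩ U2) ∩ U0) ∩ W, hI.inter _ _ (hI.inter _ _ (hI.inter _ _ hU1 hU2) hU0) hW,
    mem_inter.2 ⟨mem_inter.2 ⟨mem_inter.2 ⟨hzU1, hzU2⟩, hzU0⟩, hzW⟩, fun q hq hmem => ?_⟩
  have m1 := mem_inter.1 hmem
  have m2 := mem_inter.1 m1.1
  have m3 := mem_inter.1 m2.1
  by_cases hqp : lt q p
  · exact hW' q hqp m1.2
  have hr1q : lt r1 q := by
    rcases le_of hD hqp with h | h
    · rw [← h]; exact hp1
    · exact hD.trans _ _ _ hp1 h
  rcases hD.total q s with h | h | h
  · exact hr1' q hr1q h m3.1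
  · rw [h] at m2
    exact hdis _ m2.2 hsV
  · exact hr2' q h hq m3.2

theorem subs {P : INat M → Prop} (h : ∀ n n', P n → P n' → n = n') : FinP M P := by
  by_cases hne : ∃ n, P n
  · obtain ⟨n, hn⟩ := hne
    exact (Pool.Agent.H310.FinP.eq n).mono (fun m hm => h m n hm hn)
  · exact ⟨∅, IFin.empty, fun a ha => absurd ⟨a, ha⟩ hne⟩

end

theorem taskSeq : TaskSeq := by
  intro M _ hM Q Y _ _ lt Op f j hQ hI hf hfi hiso hd hj hji hjf
  have hD := hQ.toDLO
  have hlt := hD.int
  have hR : Int M (fun x : Q × INat M => II lt Op f (j x.2) x.1) := by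
    show Int M (fun x : Q × INat M => ∃ U, U ∈ Op ∧ j x.2 ∈ U ∧ ∀ q, lt q x.1 → ¬ f q ∈ U)
    (repeat' (first | with_reducible exact IntF.id | with_reducible exact IntF.fst' | with_reducible exact IntF.snd' | with_reducible exact IntF.const _ | with_reducible exact Int.const _ | assumption | with_reducible apply Int.and | with_reducible apply Int.or | with_reducible apply Int.not | with_reducible apply Int.imp | with_reducible apply Int.iff | with_reducible apply Int.ne | with_reducible apply Int.eq | with_reducible apply Int.mem | with_reducible apply Int.subset | with_reducible apply Int.ltN | with_reducible apply Int.leN | with_reducible apply Int.fin | with_reducible apply Int.unique | with_reducible apply Int.all | with_reducible apply Int.ex | with_reducible apply IntF.fst | with_reducible apply IntF.snd | with_reducible apply IntF.app | with_reducible apply IntF.ite | with_reducible apply IntF.sep | with_reducible apply IntF.lam | with_reducible apply IntF.insert | with_reducible apply IntF.singleton | with_reducible apply IntF.union | with_reducible apply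 IntF.inter | with_reducible apply IntF.sdiff | with_reducible apply IntF.isUnion | with_reducible apply IntF.iimage | with_reducible apply IntF.the | with_reducible apply IntF.irec | with_reducible_and_instances apply IntF.add | with_reducible_and_instances apply IntF.mul | with_reducible apply IntF.succ | with_reducible apply IntF.val | with_reducible apply IntF.mk | (with_reducible refine Int.comp ?_ ?_; assumption) | (with_reducible refine Int.comp₂ ?_ ?_ ?_; assumption) | (with_reducible refine Int.comp₃ ?_ ?_ ?_ ?_; assumption) | (with_reducible refine IntF.comp ?_ ?_; assumption) | (with_reducible refine IntF.comp₂ ?_ ?_ ?_; assumption) | (with_reducible refine IntF.comp₃ ?_ ?_ ?_ ?_; assumption) | with_reducible apply IntF.pair))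
  obtain ⟨c, hc, hcst⟩ := hQ.sup _ hR
  have hL : Int M (fun x : Q × INat M => Lim Op f (Gl lt x.1) (j x.2)) := by
    show Int M (fun x : Q × INat M => ∀ U, U ∈ Op → j x.2 ∈ U →
      ∃ r, lt r x.1 ∧ ∀ q, lt r q → lt q x.1 → f q ∈ U)
    (repeat' (first | with_reducible exact IntF.id | with_reducible exact IntF.fst' | with_reducible exact IntF.snd' | with_reducible exact IntF.const _ | with_reducible exact Int.const _ | assumption | with_reducible apply Int.and | with_reducible apply Int.or | with_reducible apply Int.not | with_reducible apply Int.imp | with_reducible apply Int.iff | with_reducible apply Int.ne | with_reducible apply Int.eq | with_reducible apply Int.mem | with_reducible apply Int.subset | with_reducible apply Int.ltN | with_reducible apply Int.leN | with_reducible apply Int.fin | with_reducible apply Int.unique | with_reducible apply Int.all | with_reducible apply Int.ex | with_reducible apply IntF.fst | with_reducible apply IntF.snd | with_reducible apply IntF.app | with_reducible apply IntF.ite | with_reducible apply IntF.sep | with_reducible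 apply IntF.lam | with_reducible apply IntF.insert | with_reducible apply IntF.singleton | with_reducible apply IntF.union | with_reducible apply IntF.inter | with_reducible apply IntF.sdiff | with_reducible apply IntF.isUnion | with_reducible apply IntF.iimage | with_reducible apply IntF.the | with_reducible apply IntF.irec | with_reducible_and_instances apply IntF.add | with_reducible_and_instances apply IntF.mul | with_reducible apply IntF.succ | with_reducible apply IntF.val | with_reducible apply IntF.mk | (with_reducible refine Int.comp ?_ ?_; assumption) | (with_reducible refine Int.comp₂ ?_ ?_ ?_; assumption) | (with_reducible refine Int.comp₃ ?_ ?_ ?_ ?_; assumption) | (with_reducible refine IntF.comp ?_ ?_; assumption) | (with_reducible refine IntF.comp₂ ?_ ?_ ?_; assumption) | (with_reducible refine IntF.comp₃ ?_ ?_ ?_ ?_; assumption) | with_reducible apply IntF.pair))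
  have hRr : Int M (fun x : Q × INat M => Lim Op f (Gr lt x.1) (j x.2)) := by
    show Int M (fun x : Q × INat M => ∀ U, U ∈ Op → j x.2 ∈ U →
      ∃ r, lt x.1 r ∧ ∀ q, lt x.1 q → lt q r → f q ∈ U)
    (repeat' (first | with_reducible exact IntF.id | with_reducible exact IntF.fst' | with_reducible exact IntF.snd' | with_reducible exact IntF.const _ | with_reducible exact Int.const _ | assumption | with_reducible apply Int.and | with_reducible apply Int.or | with_reducible apply Int.not | with_reducible apply Int.imp | with_reducible apply Int.iff | with_reducible apply Int.ne | with_reducible apply Int.eq | with_reducible apply Int.mem | with_reducible apply Int.subset | with_reducible apply Int.ltN | with_reducible apply Int.leN | with_reducible apply Int.fin | with_reducible apply Int.unique | with_reducible apply Int.all | with_reducible apply Int.ex | with_reducible apply IntF.fst | with_reducible apply IntF.snd | with_reducible apply IntF.app | with_reducible apply IntF.ite | with_reducible apply IntF.sep | with_reducible apply IntF.lam | with_reducible apply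 IntF.insert | with_reducible apply IntF.singleton | with_reducible apply IntF.union | with_reducible apply IntF.inter | with_reducible apply IntF.sdiff | with_reducible apply IntF.isUnion | with_reducible apply IntF.iimage | with_reducible apply IntF.the | with_reducible apply IntF.irec | with_reducible_and_instances apply IntF.add | with_reducible_and_instances apply IntF.mul | with_reducible apply IntF.succ | with_reducible apply IntF.val | with_reducible apply IntF.mk | (with_reducible refine Int.comp ?_ ?_; assumption) | (with_reducible refine Int.comp₂ ?_ ?_ ?_; assumption) | (with_reducible refine Int.comp₃ ?_ ?_ ?_ ?_; assumption) | (with_reducible refine IntF.comp ?_ ?_; assumption) | (with_reducible refine IntF.comp₂ ?_ ?_ ?_; assumption) | (with_reducible refine IntF.comp₃ ?_ ?_ ?_ ?_; assumption) | with_reducible apply IntF.pair))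
  have hci : Int M (fun s : Q => s ∈ c) := by (repeat' (first | with_reducible exact IntF.id | with_reducible exact IntF.fst' | with_reducible exact IntF.snd' | with_reducible exact IntF.const _ | with_reducible exact Int.const _ | assumption | with_reducible apply Int.and | with_reducible apply Int.or | with_reducible apply Int.not | with_reducible apply Int.imp | with_reducible apply Int.iff | with_reducible apply Int.ne | with_reducible apply Int.eq | with_reducible apply Int.mem | with_reducible apply Int.subset | with_reducible apply Int.ltN | with_reducible apply Int.leN | with_reducible apply Int.fin | with_reducible apply Int.unique | with_reducible apply Int.all | with_reducible apply Int.ex | with_reducible apply IntF.fst | with_reducible apply IntF.snd | with_reducible apply IntF.app | with_reducible apply IntF.ite | with_reducible apply IntF.sep | with_reducible apply IntF.lam | with_reducible apply IntF.insert | with_reducible apply IntF.singleton | with_reducible apply IntF.union | with_reducible apply IntF.inter | with_reducible apply IntF.sdiff |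 with_reducible apply IntF.isUnion | with_reducible apply IntF.iimage | with_reducible apply IntF.the | with_reducible apply IntF.irec | with_reducible_and_instances apply IntF.add | with_reducible_and_instances apply IntF.mul | with_reducible apply IntF.succ | with_reducible apply IntF.val | with_reducible apply IntF.mk | (with_reducible refine Int.comp ?_ ?_; assumption) | (with_reducible refine Int.comp₂ ?_ ?_ ?_; assumption) | (with_reducible refine Int.comp₃ ?_ ?_ ?_ ?_; assumption) | (with_reducible refine IntF.comp ?_ ?_; assumption) | (with_reducible refine IntF.comp₂ ?_ ?_ ?_; assumption) | (with_reducible refine IntF.comp₃ ?_ ?_ ?_ ?_; assumption) | with_reducible apply IntF.pair))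
  have f1 : FinP M (fun n => Lim Op f (Gm lt) (j n)) :=
    subs (fun n n' h h' => hji (lim_uniq hI (nd_m hD) h h'))
  have f2 : FinP M (fun n => Lim Op f (Gp lt) (j n)) :=
    subs (fun n n' h h' => hji (lim_uniq hI (nd_p hD) h h'))
  have f3 : FinP M (fun n => ∃ s, s ∈ c ∧ Lim Op f (Gl lt s) (j n)) :=
    Pool.Agent.H310.FinP.bUnion (P := fun s => s ∈ c)
      (R := fun x : Q × INat M => Lim Op f (Gl lt x.1) (j x.2)) ⟨c, hc, fun _ h => h⟩ hci hL
      (fun s _ => subs (fun n n' h h' => hji (lim_uniq hI (nd_l hD s) h h')))
  have f4 : FinP M (fun n => ∃ s, s ∈ c ∧ Lim Op f (Gr lt s) (j n)) :=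
    Pool.Agent.H310.FinP.bUnion (P := fun s => s ∈ c)
      (R := fun x : Q × INat M => Lim Op f (Gr lt x.1) (j x.2)) ⟨c, hc, fun _ h => h⟩ hci hRr
      (fun s _ => subs (fun n n' h h' => hji (lim_uniq hI (nd_r hD s) h h')))
  refine Pool.Agent.H310.not_finP_nat (M := M) (((f1.or f2).or (f3.or f4)).mono (fun n _ => ?_))
  rcases main hQ hI hf hd (j n) (fun a => hjf n a) c hc (fun p q h1 h2 h3 => hcst n p q h1 h2 h3)
    with h | h | ⟨s, hs, h | h⟩
  · exact Or.inl (Or.inl h)
  · exact Or.inl (Or.inr h)
  · exact Or.inr (Or.inl ⟨s, hs, h⟩)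
  · exact Or.inr (Or.inr ⟨s, hs, h⟩)

end Pool.Agent.H558R3.InhSeq
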