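import Mathlib

/-!
Abstract part of the positive fraction Kirchberger theorem: strict solutions of finite systems of
homogeneous linear inequalities in a finite-dimensional real inner product space.

* `exists_sol_of_small`: if every `finrank W + 1` inequalities of a finite system are solvable then
  the whole system is (Helly).
* `exists_compression`: a canonical solution (the one of minimal norm) of a solvable system is
  already the canonical solution of a subsystem with `finrank W` members.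
-/

open Finset Module
open scoped InnerProductSpace

namespace Pool.Agent.H558R3.Kirch

set_option linter.unusedSectionVars false

variable {W : Type*} [NormedAddCommGroup W] [InnerProductSpace ℝ W] [FiniteDimensional ℝ W]
variable {V : Type*} [DecidableEq V]

/-- the feasible set of the system `1 ≤ ⟪w, φ x⟫`, `x ∈ S` -/
def feas (φ : V → W) (S : Finset V) : Set W := {w | ∀ x ∈ S, 1 ≤ ⟪w, φ x⟫_ℝ}

lemma feas_anti (φ : V → W) {S T : Finset V} (h : S ⊆ T) : feas φ T ⊆ feas φ S :=
  fun _ hw x hx => hw x (h hx)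

lemma feas_convex (φ : V → W) (S : Finset V) : Convex ℝ (feas φ S) := by
  intro a ha b hb s t hs ht hst x hx
  rw [inner_add_left, real_inner_smul_left, real_inner_smul_left]
  nlinarith [ha x hx, hb x hx]

lemma feas_closed (φ : V → W) (S : Finset V) : IsClosed (feas φ S) := by
  have : feas φ S = ⋂ x ∈ S, {w : W | 1 ≤ ⟪w, φ x⟫_ℝ} := by
    ext w; simp [feas]
  rw [this]
  exact isClosed_biInter fun x _ => isClosed_le continuous_const (by fun_prop)

lemma exists_min (φ : V → W) (S : Finset V) (h : (feas φ S).Nonempty) :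
    ∃ v ∈ feas φ S, ∀ w ∈ feas φ S, ‖v‖ ≤ ‖w‖ := by
  obtain ⟨v, hv, he⟩ := exists_norm_eq_iInf_of_complete_convex h (feas_closed φ S).isComplete
    (feas_convex φ S) 0
  refine ⟨v, hv, fun w hw => ?_⟩
  rw [zero_sub, norm_neg] at he
  rw [he]
  have := ciInf_le (f := fun w : feas φ S => ‖(0 : W) - w‖)
    ⟨0, Set.forall_mem_range.2 fun _ => norm_nonneg _⟩ ⟨w, hw⟩
  simpa using this

lemma min_unique (φ : V → W) (S : Finset V) {v w : W} (hv : v ∈ feas φ S) (hw : w ∈ feas φ S)
    (hvm : ∀ z ∈ feas φ S, ‖v‖ ≤ ‖z‖) (hwv : ‖w‖ ≤ ‖v‖) : v = w := by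
  have hmid : (1 / 2 : ℝ) • v + (1 / 2 : ℝ) • w ∈ feas φ S :=
    feas_convex φ S hv hw (by norm_num) (by norm_num) (by norm_num)
  have h1 := hvm _ hmid
  have h2 : ‖(1 / 2 : ℝ) • v + (1 / 2 : ℝ) • w‖ = (1 / 2) * ‖v + w‖ := by
    rw [← smul_add, norm_smul]; norm_num
  rw [h2] at h1
  have h3 := parallelogram_law_with_norm ℝ v w
  have h4 : ‖v‖ ^ 2 * 4 ≤ ‖v + w‖ ^ 2 := by nlinarith [norm_nonneg v, norm_nonneg (v + w)]
  have h5 : ‖w‖ ^ 2 ≤ ‖v‖ ^ 2 := by nlinarith [norm_nonneg v, norm_nonneg w]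
  have h6 : ‖v - w‖ * ‖v - w‖ ≤ 0 := by nlinarith
  have h7 : ‖v - w‖ = 0 := by nlinarith [norm_nonneg (v - w)]
  exact sub_eq_zero.1 (norm_eq_zero.1 h7)

open Classical in
/-- the solution of minimal norm of the system (or `0` if there is no solution) -/
noncomputable def sol (φ : V → W) (S : Finset V) : W :=
  if h : (feas φ S).Nonempty then (exists_min φ S h).choose else 0

lemma sol_mem (φ : V → W) (S : Finset V) (h : (feas φ S).Nonempty) : sol φ S ∈ feas φ S := by
  unfold sol; rw [dif_pos h]; exact (exists_min φ S h).choose_spec.1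

lemma sol_min (φ : V → W) (S : Finset V) (h : (feas φ S).Nonempty) :
    ∀ z ∈ feas φ S, ‖sol φ S‖ ≤ ‖z‖ := by
  unfold sol; rw [dif_pos h]; exact (exists_min φ S h).choose_spec.2

/-- The canonical solution is determined by `finrank W` of the inequalities. -/
theorem exists_compression (φ : V → W) (S : Finset V) (h : (feas φ S).Nonempty)
    (hS : finrank ℝ W ≤ S.card) :
    ∃ T ⊆ S, T.card = finrank ℝ W ∧ sol φ T ∈ feas φ S := by
  classical
  -- the family: a ball and the half-spaces
  let F : Option V → Set W := fun o => o.elim (Metric.ball 0 ‖sol φ S‖)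
    (fun x => {w | 1 ≤ ⟪w, φ x⟫_ℝ})
  have hcx : ∀ i ∈ insertNone S, Convex ℝ (F i) := by
    intro i hi
    cases i with
    | none => exact convex_ball _ _
    | some x =>
      intro a ha b hb s t hs ht hst
      simp only [F, Option.elim, Set.mem_ofPred_eq] at ha hb ⊢
      rw [inner_add_left, real_inner_smul_left, real_inner_smul_left]
      nlinarith
  have hno : ¬ (⋂ i ∈ insertNone S, F i).Nonempty := by
    rintro ⟨w, hw⟩
    rw [Set.mem_iInter₂] at hw
    have h0 := hw none (by simp)
    have hf : w ∈ feas φ S := fun x hx => hw (some x) (by simpa using hx)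
    have := sol_min φ S h w hf
    simp only [F, Option.elim, Metric.mem_ball, dist_zero_right] at h0
    linarith
  have hex : ∃ I ⊆ insertNone S, I.card ≤ finrank ℝ W + 1 ∧ ¬ (⋂ i ∈ I, F i).Nonempty := by
    by_contra hcon
    push Not at hcon
    exact hno (Convex.helly_theorem' (𝕜 := ℝ) hcx fun I hI hc => by
      have := hcon I hI hc
      exact this)
  obtain ⟨I, hI, hIc, hIn⟩ := hex
  have hnone : none ∈ I := by
    by_contra hn
    apply hIn
    refine ⟨sol φ S, ?_⟩
    rw [Set.mem_iInter₂]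
    intro i hi
    cases i with
    | none => exact absurd hi hn
    | some x => exact sol_mem φ S h x (by simpa using hI hi)
  let T₀ : Finset V := I.eraseNone
  have hT₀S : T₀ ⊆ S := by
    intro x hx
    have : some x ∈ I := by simpa [T₀] using hx
    simpa using hI this
  have hT₀c : T₀.card ≤ finrank ℝ W := by
    have h1 : insertNone T₀ = I := by
      rw [Finset.insertNone_eraseNone, Finset.insert_eq_of_mem hnone]
    have h2 := congrArg Finset.card h1
    rw [Finset.card_insertNone] at h2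
    omega
  obtain ⟨T, hT0T, hTS, hTc⟩ := exists_subsuperset_card_eq hT₀S hT₀c hS
  refine ⟨T, hTS, hTc, ?_⟩
  have hTne : (feas φ T).Nonempty := h.mono (feas_anti φ hTS)
  have hle : ‖sol φ S‖ ≤ ‖sol φ T‖ := by
    by_contra hlt
    push Not at hlt
    apply hIn
    refine ⟨sol φ T, ?_⟩
    rw [Set.mem_iInter₂]
    intro i hi
    cases i with
    | none => simpa [F, Option.elim, Metric.mem_ball] using hlt
    | some x => exact sol_mem φ T hTne x (hT0T (by simpa [T₀] using hi))
  have heq : sol φ T = sol φ S :=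
    min_unique φ T (sol_mem φ T hTne) (feas_anti φ hTS (sol_mem φ S h)) (sol_min φ T hTne) hle
  rw [heq]
  exact sol_mem φ S h

/-- Helly for strict homogeneous systems. -/
theorem exists_sol_of_small (φ : V → W) (S : Finset V) (hS : finrank ℝ W + 1 ≤ S.card)
    (h : ∀ T ⊆ S, T.card = finrank ℝ W + 1 → ∃ w : W, ∀ x ∈ T, 0 < ⟪w, φ x⟫_ℝ) :
    ∃ w : W, ∀ x ∈ S, 0 < ⟪w, φ x⟫_ℝ := by
  have := Convex.helly_theorem (𝕜 := ℝ) (F := fun x : V => {w : W | 0 < ⟪w, φ x⟫_ℝ}) (s := S) hS
    (by
      intro x _ a ha b hb s t hs ht hst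
      simp only [Set.mem_ofPred_eq] at ha hb ⊢
      rw [inner_add_left, real_inner_smul_left, real_inner_smul_left]
      rcases hs.eq_or_lt with h0 | h0
      · subst h0
        have : t = 1 := by linarith
        subst this; simpa using hb
      · have := mul_pos h0 ha
        have := mul_nonneg ht hb.le
        linarith)
    (by
      intro I hI hc
      obtain ⟨w, hw⟩ := h I hI hc
      exact ⟨w, by simpa using hw⟩)
  obtain ⟨w, hw⟩ := this
  exact ⟨w, by simpa using hw⟩

lemma feas_nonempty_of_pos (φ : V → W) (S : Finset V) (h : ∃ w : W, ∀ x ∈ S, 0 < ⟪w, φ x⟫_ℝ) :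
    (feas φ S).Nonempty := by
  obtain ⟨w, hw⟩ := h
  rcases S.eq_empty_or_nonempty with rfl | hne
  · exact ⟨0, by simp [feas]⟩
  obtain ⟨x₀, hx₀, hmin⟩ := S.exists_min_image (fun x => ⟪w, φ x⟫_ℝ) hne
  refine ⟨(⟪w, φ x₀⟫_ℝ)⁻¹ • w, fun x hx => ?_⟩
  rw [real_inner_smul_left]
  have h0 := hw x₀ hx₀
  have h1 := hmin x hx
  calc (1 : ℝ) = (⟪w, φ x₀⟫_ℝ)⁻¹ * ⟪w, φ x₀⟫_ℝ := (inv_mul_cancel₀ h0.ne').symm
    _ ≤ _ := mul_le_mul_of_nonneg_left h1 (inv_nonneg.2 h0.le)

end Pool.Agent.H558R3.Kirch
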