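import Mathlib

/-!
Counting part of the positive fraction Kirchberger theorem.
-/

open Finset

namespace Pool.Agent.H558R3.Kirch

lemma choose_le_pow (θ : ℝ) (h0 : 0 ≤ θ) (h1 : θ ≤ 1) (a b : ℕ) (hab : (a : ℝ) ≤ θ * b) (k : ℕ) :
    (a.choose k : ℝ) ≤ θ ^ k * b.choose k := by
  induction k with
  | zero => simp
  | succ k ih =>
    rcases le_or_gt a k with h | h
    · rw [Nat.choose_eq_zero_of_lt (by omega : a < k + 1)]
      push_cast; positivity
    have hb : a ≤ b := by
      have : (a : ℝ) ≤ b := hab.trans (by nlinarith [(Nat.cast_nonneg b : (0 : ℝ) ≤ b)])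
      exact_mod_cast this
    have e1 : (a.choose (k + 1) : ℝ) * (k + 1) = a.choose k * ((a : ℝ) - k) := by
      have := Nat.choose_succ_right_eq a k
      have h2 : ((a.choose (k + 1) * (k + 1) : ℕ) : ℝ) = ((a.choose k * (a - k) : ℕ) : ℝ) := by
        rw [this]
      push_cast [Nat.cast_sub h.le] at h2
      exact h2
    have e2 : (b.choose (k + 1) : ℝ) * (k + 1) = b.choose k * ((b : ℝ) - k) := by
      have := Nat.choose_succ_right_eq b k
      have h2 : ((b.choose (k + 1) * (k + 1) : ℕ) : ℝ) = ((b.choose k * (b - k) : ℕ) : ℝ) := by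
        rw [this]
      push_cast [Nat.cast_sub (h.le.trans hb)] at h2
      exact h2
    have hk : (0 : ℝ) < (k : ℝ) + 1 := by positivity
    have hak : (0 : ℝ) ≤ (a : ℝ) - k := by
      have : (k : ℝ) ≤ a := by exact_mod_cast h.le
      linarith
    have hle : (a : ℝ) - k ≤ θ * ((b : ℝ) - k) := by
      nlinarith [(Nat.cast_nonneg k : (0 : ℝ) ≤ k)]
    have h3 : (a.choose (k + 1) : ℝ) * (k + 1) ≤ (θ ^ (k + 1) * b.choose (k + 1)) * (k + 1) := by
      calc (a.choose (k + 1) : ℝ) * (k + 1) = a.choose k * ((a : ℝ) - k) := e1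
        _ ≤ (θ ^ k * b.choose k) * (θ * ((b : ℝ) - k)) :=
            mul_le_mul ih hle hak (by positivity)
        _ = θ ^ (k + 1) * (b.choose k * ((b : ℝ) - k)) := by ring
        _ = (θ ^ (k + 1) * b.choose (k + 1)) * (k + 1) := by rw [← e2]; ring
    exact le_of_mul_le_mul_right h3 hk

variable {V : Type*} [DecidableEq V]

lemma card_super (𝒱 T U : Finset V) (M : ℕ) :
    ((powersetCard M 𝒱).filter fun S => T ⊆ S ∧ Disjoint S U).card ≤
      (𝒱 \ (T ∪ U)).card.choose (M - T.card) := by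
  rw [← card_powersetCard]
  apply card_le_card_of_injOn (fun S => S \ T)
  · intro S hS
    simp only [coe_filter, mem_powersetCard, Set.mem_ofPred_eq, mem_coe] at hS ⊢
    obtain ⟨⟨h1, h2⟩, h3, h4⟩ := hS
    refine ⟨?_, ?_⟩
    · intro x hx
      rw [mem_sdiff] at hx ⊢
      refine ⟨h1 hx.1, ?_⟩
      rw [mem_union, not_or]
      exact ⟨hx.2, fun hu => disjoint_left.1 h4 hx.1 hu⟩
    · rw [card_sdiff_of_subset h3, h2]
  · intro S hS S' hS' he
    simp only [coe_filter, mem_powersetCard, Set.mem_ofPred_eq] at hS hS'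
    simp only at he
    rw [← sdiff_union_of_subset hS.2.1, he, sdiff_union_of_subset hS'.2.1]

/-- Sampling: if few `K`-sets are bad, and every `M`-set without bad `K`-subset avoids `Bad T` for
one of its `D`-subsets `T`, then some `Bad T` is small. -/
theorem sampling (𝒱 : Finset V) (K D M : ℕ) (hKM : K ≤ M) (hDM : D ≤ M) (hMn : M ≤ 𝒱.card)
    (ε η : ℝ) (hη0 : 0 ≤ η) (hη1 : η ≤ 1)
    (hε : ε * M.choose K ≤ 1 / 2) (hM : (M.choose D : ℝ) * (1 - η) ^ (M - D) < 1 / 2)
    (𝓑 : Finset (Finset V)) (h𝓑 : 𝓑 ⊆ powersetCard K 𝒱)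
    (h𝓑c : (𝓑.card : ℝ) ≤ ε * (𝒱.card.choose K))
    (Bad : Finset V → Finset V)
    (hcomp : ∀ S ∈ powersetCard M 𝒱, (∀ T ∈ 𝓑, ¬ T ⊆ S) → ∃ T ⊆ S, T.card = D ∧
      Disjoint S (Bad T)) :
    ∃ T ∈ powersetCard D 𝒱, ((𝒱 ∩ Bad T).card : ℝ) < η * 𝒱.card := by
  by_contra hcon
  push Not at hcon
  set n := 𝒱.card with hn
  -- the two families
  let 𝓐 : Finset (Finset V) := 𝓑.biUnion fun T =>
    (powersetCard M 𝒱).filter fun S => T ⊆ S ∧ Disjoint S (∅ : Finset V)
  let 𝓒 : Finset (Finset V) := (powersetCard D 𝒱).biUnion fun T =>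
    (powersetCard M 𝒱).filter fun S => T ⊆ S ∧ Disjoint S (Bad T)
  have hcover : powersetCard M 𝒱 ⊆ 𝓐 ∪ 𝓒 := by
    intro S hS
    rw [mem_union]
    by_cases h : ∀ T ∈ 𝓑, ¬ T ⊆ S
    · right
      obtain ⟨T, hTS, hTc, hd⟩ := hcomp S hS h
      rw [mem_biUnion]
      refine ⟨T, ?_, ?_⟩
      · rw [mem_powersetCard] at hS ⊢
        exact ⟨hTS.trans hS.1, hTc⟩
      · rw [mem_filter]; exact ⟨hS, hTS, hd⟩
    · left
      push Not at h
      obtain ⟨T, hT, hTS⟩ := h
      rw [mem_biUnion]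
      exact ⟨T, hT, by rw [mem_filter]; exact ⟨hS, hTS, disjoint_empty_right _⟩⟩
  have hA : (𝓐.card : ℝ) ≤ 1 / 2 * n.choose M := by
    have h1 : 𝓐.card ≤ 𝓑.card * (n - K).choose (M - K) := by
      apply card_biUnion_le_card_mul
      intro T hT
      have hT' := mem_powersetCard.1 (h𝓑 hT)
      refine (card_super 𝒱 T ∅ M).trans ?_
      rw [union_empty, card_sdiff_of_subset hT'.1, hT'.2]
    have h2 : n.choose M * M.choose K = n.choose K * (n - K).choose (M - K) :=
      Nat.choose_mul hKM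
    have h2' : (n.choose M : ℝ) * M.choose K = n.choose K * (n - K).choose (M - K) := by
      exact_mod_cast h2
    calc (𝓐.card : ℝ) ≤ 𝓑.card * (n - K).choose (M - K) := by exact_mod_cast h1
      _ ≤ (ε * n.choose K) * (n - K).choose (M - K) :=
          mul_le_mul_of_nonneg_right h𝓑c (by positivity)
      _ = (ε * M.choose K) * n.choose M := by rw [mul_assoc, ← h2']; ring
      _ ≤ 1 / 2 * n.choose M := mul_le_mul_of_nonneg_right hε (by positivity)
  have hC : (𝓒.card : ℝ) ≤ (M.choose D : ℝ) * (1 - η) ^ (M - D) * n.choose M := by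
    have h1 : ∀ T ∈ powersetCard D 𝒱,
        ((((powersetCard M 𝒱).filter fun S => T ⊆ S ∧ Disjoint S (Bad T)).card : ℕ) : ℝ) ≤
          (1 - η) ^ (M - D) * (n - D).choose (M - D) := by
      intro T hT
      have hT' := mem_powersetCard.1 hT
      by_cases hemp : ((powersetCard M 𝒱).filter fun S => T ⊆ S ∧ Disjoint S (Bad T)) = ∅
      · rw [hemp, card_empty]
        have : (0 : ℝ) ≤ 1 - η := by linarith
        push_cast; positivity
      obtain ⟨S, hS⟩ := nonempty_iff_ne_empty.2 hemp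
      rw [mem_filter, mem_powersetCard] at hS
      obtain ⟨⟨hS1, hS2⟩, hS3, hS4⟩ := hS
      have hdis : Disjoint T (Bad T) := disjoint_of_subset_left hS3 hS4
      have hcard : (𝒱 \ (T ∪ Bad T)).card + D + (𝒱 ∩ Bad T).card = n := by
        have e1 : 𝒱 = (𝒱 \ (T ∪ Bad T)) ∪ T ∪ (𝒱 ∩ Bad T) := by
          ext x
          simp only [mem_union, mem_sdiff, mem_inter]
          constructor
          · intro hx; by_cases h1 : x ∈ T <;> by_cases h2 : x ∈ Bad T <;> simp [hx, h1, h2]
          · rintro ((h | h) | h)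
            · exact h.1
            · exact hT'.1 h
            · exact h.1
        have d1 : Disjoint (𝒱 \ (T ∪ Bad T)) T := by
          rw [disjoint_left]
          intro x hx hxT
          rw [mem_sdiff, mem_union] at hx
          exact hx.2 (Or.inl hxT)
        have d2 : Disjoint ((𝒱 \ (T ∪ Bad T)) ∪ T) (𝒱 ∩ Bad T) := by
          rw [disjoint_left]
          intro x hx hxB
          rw [mem_inter] at hxB
          rw [mem_union, mem_sdiff, mem_union] at hx
          rcases hx with hx | hx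
          · exact hx.2 (Or.inr hxB.2)
          · exact disjoint_left.1 hdis hx hxB.2
        conv_rhs => rw [hn, e1]
        rw [card_union_of_disjoint d2, card_union_of_disjoint d1, hT'.2]
      refine (Nat.cast_le.2 (card_super 𝒱 T (Bad T) M)).trans ?_
      rw [hT'.2]
      have hDn : D ≤ n := hDM.trans hMn
      have hr := hcon T hT
      apply choose_le_pow _ (by linarith) (by linarith)
      have hcr : ((𝒱 \ (T ∪ Bad T)).card : ℝ) + D + (𝒱 ∩ Bad T).card = n := by exact_mod_cast hcard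
      rw [Nat.cast_sub hDn]
      nlinarith [(Nat.cast_nonneg D : (0 : ℝ) ≤ D)]
    have h2 : (𝓒.card : ℝ) ≤ ∑ T ∈ powersetCard D 𝒱,
        ((((powersetCard M 𝒱).filter fun S => T ⊆ S ∧ Disjoint S (Bad T)).card : ℕ) : ℝ) := by
      exact_mod_cast card_biUnion_le
    have h3 : (n.choose M : ℝ) * M.choose D = n.choose D * (n - D).choose (M - D) := by
      exact_mod_cast (Nat.choose_mul hDM : n.choose M * M.choose D = _)
    calc (𝓒.card : ℝ) ≤ _ := h2
      _ ≤ ∑ T ∈ powersetCard D 𝒱, (1 - η) ^ (M - D) * ((n - D).choose (M - D) : ℝ) :=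
          sum_le_sum h1
      _ = n.choose D * ((1 - η) ^ (M - D) * (n - D).choose (M - D)) := by
          rw [sum_const, card_powersetCard, nsmul_eq_mul]
      _ = (M.choose D : ℝ) * (1 - η) ^ (M - D) * n.choose M := by
          rw [mul_left_comm, ← h3]; ring
  have hpos : (0 : ℝ) < n.choose M := by exact_mod_cast Nat.choose_pos hMn
  have htot : (n.choose M : ℝ) ≤ 𝓐.card + 𝓒.card := by
    have h1 := (card_le_card hcover).trans (card_union_le _ _)
    rw [card_powersetCard] at h1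
    exact_mod_cast h1
  have : (M.choose D : ℝ) * (1 - η) ^ (M - D) * n.choose M < 1 / 2 * n.choose M :=
    mul_lt_mul_of_pos_right hM hpos
  linarith

/-- a suitable sample size -/
lemma exists_sample_size (K D : ℕ) (η : ℝ) (hη0 : 0 < η) (hη1 : η < 1) :
    ∃ M, K ≤ M ∧ D ≤ M ∧ (M.choose D : ℝ) * (1 - η) ^ (M - D) < 1 / 2 := by
  have h1 := tendsto_pow_const_mul_const_pow_of_abs_lt_one D (r := 1 - η)
    (by rw [abs_lt]; constructor <;> linarith)
  have hr : 0 < 1 - η := by linarith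
  have h2 := h1.const_mul (((1 - η) ^ D)⁻¹)
  rw [mul_zero] at h2
  have h3 := (h2.eventually (gt_mem_nhds (by norm_num : (0 : ℝ) < 1 / 2)))
  obtain ⟨M, hM1, hM2⟩ := (h3.and (Filter.eventually_ge_atTop (K + D))).exists
  refine ⟨M, by omega, by omega, lt_of_le_of_lt ?_ hM1⟩
  have h4 : (M.choose D : ℝ) ≤ (M : ℝ) ^ D := by exact_mod_cast Nat.choose_le_pow M D
  have h5 : (1 - η) ^ (M - D) = ((1 - η) ^ D)⁻¹ * (1 - η) ^ M := by
    rw [eq_inv_mul_iff_mul_eq₀ (by positivity), ← pow_add]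
    congr 1; omega
  rw [h5]
  calc (M.choose D : ℝ) * (((1 - η) ^ D)⁻¹ * (1 - η) ^ M)
      ≤ (M : ℝ) ^ D * (((1 - η) ^ D)⁻¹ * (1 - η) ^ M) :=
        mul_le_mul_of_nonneg_right h4 (by positivity)
    _ = _ := by ring

end Pool.Agent.H558R3.Kirch
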