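import Mathlib
import Pool.Agent.H197R3.SF.Stmts

set_option autoImplicit false

namespace Pool.Agent.H558R3.SFUniq

open MeasureTheory Filter Topology Set Pool.Agent.H197R3.SF

theorem norm_ch (ω t : ℝ) : ‖ch ω t‖ = 1 := by
  unfold ch
  rw [Complex.norm_exp]
  simp

theorem cont_ch (ω : ℝ) : Continuous (fun t : ℝ => ch ω t) := by
  unfold ch
  fun_prop

theorem norm_wt {σ : ℝ} (hσ : 0 < σ) (t : ℝ) : 1 ≤ ‖wt σ t‖ := by
  unfold wt
  rw [Complex.norm_real, Real.norm_eq_abs, abs_of_pos (Real.exp_pos _)]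
  exact Real.one_le_exp (mul_nonneg hσ.le (abs_nonneg t))

theorem cont_wt (σ : ℝ) : Continuous (fun t : ℝ => wt σ t) := by
  unfold wt
  fun_prop

theorem wt_ne (σ t : ℝ) : wt σ t ≠ 0 := by
  unfold wt
  exact_mod_cast (Real.exp_pos _).ne'

theorem integrable_of {σ : ℝ} (hσ : 0 < σ) {f : ℝ → ℂ}
    (h : Integrable (fun t : ℝ => f t * wt σ t)) : Integrable f := by
  have hm : AEStronglyMeasurable f volume := by
    have h1 : f = fun t => (f t * wt σ t) * (wt σ t)⁻¹ := by
      funext t
      rw [mul_assoc, mul_inv_cancel₀ (wt_ne σ t), mul_one]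
    rw [h1]
    exact h.aestronglyMeasurable.mul
      ((cont_wt σ).inv₀ (fun t => wt_ne σ t)).aestronglyMeasurable
  refine h.mono hm (Eventually.of_forall (fun t => ?_))
  rw [norm_mul]
  exact le_mul_of_one_le_right (norm_nonneg _) (norm_wt hσ t)

theorem summable_of {σ : ℝ} (hσ : 0 < σ) {c : ℝ → ℂ}
    (h : Summable (fun t : ℝ => ‖c t‖ * Real.exp (σ * |t|))) : Summable (fun t : ℝ => ‖c t‖) := by
  refine Summable.of_nonneg_of_le (fun t => norm_nonneg _) (fun t => ?_) h
  exact le_mul_of_one_le_right (norm_nonneg _)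
    (Real.one_le_exp (mul_nonneg hσ.le (abs_nonneg t)))

theorem int_ch {f : ℝ → ℂ} (h : Integrable f) (ω : ℝ) : Integrable (fun t => f t * ch ω t) := by
  refine h.mono (h.aestronglyMeasurable.mul (cont_ch ω).aestronglyMeasurable)
    (Eventually.of_forall (fun t => ?_))
  rw [norm_mul, norm_ch, mul_one]

theorem sum_ch {c : ℝ → ℂ} (h : Summable (fun t : ℝ => ‖c t‖)) (ω : ℝ) :
    Summable (fun t : ℝ => c t * ch ω t) := by
  apply Summable.of_norm
  simpa [norm_mul, norm_ch] using h

theorem taskUniq : TaskUniq := by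
  intro U1 U2 σ E K E' K' f c f' c' F hσ h h'
  have hf := integrable_of hσ h.intg
  have hf' := integrable_of hσ h'.intg
  have hc := summable_of hσ h.summ
  have hc' := summable_of hσ h'.summ
  have hcs : Summable (fun t : ℝ => ‖c t - c' t‖) :=
    Summable.of_nonneg_of_le (fun t => norm_nonneg _) (fun t => norm_sub_le _ _) (hc.add hc')
  have key : ∀ ω : ℝ, (∫ t, (f t - f' t) * ch ω t) + ∑' t : ℝ, (c t - c' t) * ch ω t = 0 := by
    intro ω
    have e1 : (∫ t, (f t - f' t) * ch ω t) = (∫ t, f t * ch ω t) - ∫ t, f' t * ch ω t := by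
      rw [← integral_sub (int_ch hf ω) (int_ch hf' ω)]
      congr 1
      funext t
      ring
    have e2 : ∑' t : ℝ, (c t - c' t) * ch ω t = (∑' t : ℝ, c t * ch ω t) -
        ∑' t : ℝ, c' t * ch ω t := by
      rw [← (sum_ch hc ω).tsum_sub (sum_ch hc' ω)]
      congr 1
      funext t
      ring
    rw [e1, e2]
    have e3 := h.eq ω
    have e4 := h'.eq ω
    linear_combination e4 - e3
  have hc0 := U1 (fun t => f t - f' t) (fun t => c t - c' t) (hf.sub hf') hcs key
  refine ⟨fun t => sub_eq_zero.1 (hc0 t), ?_⟩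
  have hf0 := U2 (fun t => f t - f' t) (hf.sub hf') (fun ω => by
    have h1 := key ω
    have h2 : ∑' t : ℝ, (c t - c' t) * ch ω t = 0 := by
      have : (fun t : ℝ => (c t - c' t) * ch ω t) = fun _ => 0 := by
        funext t
        have h5 : c t - c' t = 0 := hc0 t
        rw [h5, zero_mul]
      rw [this, tsum_zero]
    rw [h2, add_zero] at h1
    exact h1)
  filter_upwards [hf0] with t ht
  exact sub_eq_zero.1 ht

end Pool.Agent.H558R3.SFUniq
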