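import Pool.Agent.H110R3.UF.Stmts

/-! Tensor products of good decompositions are good (task of MP_7857a6_al). -/

open CategoryTheory MonoidalCategory CategoryTheory.Limits

universe v u

namespace Pool.Agent.H558R3.UFTens

open Pool.Agent.H110R3.UF

variable {C : Type u} [Category.{v} C] [Preadditive C] [Linear ℂ C] [MonoidalCategory C]
  [MonoidalPreadditive C] {K : Ctx C}

theorem tens_ortho (X Y : Pre K) (hX : X.Good) (hY : Y.Good) (i j : (X.tens Y).I) :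
    (X.tens Y).inc i ≫ (X.tens Y).prj j =
      if i = j then K.dl ((X.tens Y).s i) ((X.tens Y).s j) else 0 := by
  obtain ⟨⟨i1, i2⟩, c, k⟩ := i
  obtain ⟨⟨j1, j2⟩, c', k'⟩ := j
  change (K.G _ _ c k ≫ (X.inc i1 ⊗ₘ Y.inc i2)) ≫ ((X.prj j1 ⊗ₘ Y.prj j2) ≫ K.G' _ _ c' k') = _
  have key : (K.G _ _ c k ≫ (X.inc i1 ⊗ₘ Y.inc i2)) ≫
      ((X.prj j1 ⊗ₘ Y.prj j2) ≫ K.G' _ _ c' k') =
      K.G _ _ c k ≫ ((X.inc i1 ≫ X.prj j1) ⊗ₘ (Y.inc i2 ≫ Y.prj j2)) ≫ K.G' _ _ c' k' := by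
    rw [← MonoidalCategory.tensorHom_comp_tensorHom]
    simp only [Category.assoc]
  rw [key]
  by_cases h1 : i1 = j1
  · subst h1
    by_cases h2 : i2 = j2
    · subst h2
      rw [hX.ortho, hY.ortho, if_pos rfl, if_pos rfl, K.dl_self, K.dl_self,
        MonoidalCategory.id_tensorHom_id, Category.id_comp, K.ortho]
      by_cases h : (⟨c, k⟩ : Σ c, Fin (K.N (X.s i1) (Y.s i2) c)) = ⟨c', k'⟩
      · rw [if_pos h, if_pos]
        · rfl
        · rw [h]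
      · rw [if_neg h]
        refine (if_neg ?_).symm
        intro h'
        apply h
        exact eq_of_heq (Sigma.mk.inj_iff.mp h').2
    · rw [hY.ortho, if_neg h2, MonoidalPreadditive.tensor_zero, zero_comp, comp_zero]
      refine (if_neg ?_).symm
      intro h'
      apply h2
      exact congrArg (fun p => p.1.2) h'
  · rw [hX.ortho, if_neg h1, MonoidalPreadditive.zero_tensor, zero_comp, comp_zero]
    refine (if_neg ?_).symm
    intro h'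
    apply h1
    exact congrArg (fun p => p.1.1) h'

theorem tens_total (X Y : Pre K) (hX : X.Good) (hY : Y.Good) :
    ∑ i, (X.tens Y).prj i ≫ (X.tens Y).inc i = 𝟙 (X.tens Y).X := by
  change ∑ q : (Σ p : X.I × Y.I, Σ c, Fin (K.N (X.s p.1) (Y.s p.2) c)),
    ((X.prj q.1.1 ⊗ₘ Y.prj q.1.2) ≫ K.G' _ _ q.2.1 q.2.2) ≫
      (K.G _ _ q.2.1 q.2.2 ≫ (X.inc q.1.1 ⊗ₘ Y.inc q.1.2)) = 𝟙 (X.X ⊗ Y.X)
  rw [Fintype.sum_sigma]
  have h : ∀ p : X.I × Y.I, ∑ y : (Σ c, Fin (K.N (X.s p.1) (Y.s p.2) c)),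
      ((X.prj p.1 ⊗ₘ Y.prj p.2) ≫ K.G' _ _ y.1 y.2) ≫
      (K.G _ _ y.1 y.2 ≫ (X.inc p.1 ⊗ₘ Y.inc p.2)) =
      (X.prj p.1 ≫ X.inc p.1) ⊗ₘ (Y.prj p.2 ≫ Y.inc p.2) := by
    intro p
    have h1 : ∀ y : (Σ c, Fin (K.N (X.s p.1) (Y.s p.2) c)),
        ((X.prj p.1 ⊗ₘ Y.prj p.2) ≫ K.G' _ _ y.1 y.2) ≫
        (K.G _ _ y.1 y.2 ≫ (X.inc p.1 ⊗ₘ Y.inc p.2)) =
        (X.prj p.1 ⊗ₘ Y.prj p.2) ≫ (K.G' _ _ y.1 y.2 ≫ K.G _ _ y.1 y.2) ≫
          (X.inc p.1 ⊗ₘ Y.inc p.2) := by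
      intro y
      simp only [Category.assoc]
    rw [Finset.sum_congr rfl (fun y _ => h1 y), ← Preadditive.comp_sum, ← Preadditive.sum_comp,
      K.total, Category.id_comp, MonoidalCategory.tensorHom_comp_tensorHom]
  rw [Finset.sum_congr rfl (fun p _ => h p), Fintype.sum_prod_type]
  have h2 : ∀ x : X.I, ∑ y : Y.I, ((X.prj x ≫ X.inc x) ⊗ₘ (Y.prj y ≫ Y.inc y)) =
      (X.prj x ≫ X.inc x) ⊗ₘ 𝟙 Y.X := by
    intro x
    rw [← tensor_sum, hY.total]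
  rw [Finset.sum_congr rfl (fun x _ => h2 x), ← sum_tensor, hX.total,
    MonoidalCategory.id_tensorHom_id]

theorem taskTens : TaskTens.{v, u} := by
  intro C _ _ _ _ _ _ K
  refine ⟨fun X Y hX hY => ⟨tens_ortho X Y hX hY, tens_total X Y hX hY⟩, ⟨?_, ?_⟩⟩
  · intro i j
    change K.oinc ≫ K.oprj = if i = j then K.dl K.o K.o else 0
    rw [K.oinc_oprj, ← K.dl_self]
    exact (if_pos (Subsingleton.elim (α := Unit) i j)).symm
  · change ∑ i : Unit, K.oprj ≫ K.oinc = 𝟙 (𝟙_ C)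
    rw [Fintype.sum_unique, K.oprj_oinc]

end Pool.Agent.H558R3.UFTens
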